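import Pool.Agent.H378R3.ND.LegP
import Pool.Agent.H409R3.Leg.Prop

/-! The final families. -/

set_option autoImplicit false

namespace Pool.Agent.H378R3.ND
open Finset Pool.Agent.H565.Win Pool.Agent.H409R3.Sub
open scoped Classical

noncomputable section

/-- everything about the leg -/
theorem fam {V : ℕ → (ℕ → ℕ) → Prop} {L : ℕ → Finset ℕ} {α s : ℕ} {F : Finset (List ℕ)}
    (hs : 1300 ≤ s) (hL : ∀ k, (L k).card = 4)
    (hsm : ((F.card : ℚ) + 30 * s + 2) * (25 / 43) ^ (s - 8) ≤ 1 / 100000000)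
    (hV : Local V) (hVw : ∀ p c, V p c → ¬ winBad s F p c) :
    ∃ (ok : ℕ → (ℕ → ℕ) → Prop) (n1 : ℕ), Local ok ∧ 12 * s ≤ n1 ∧ n1 ≤ 15 * s ∧
      0 < S ok L n1 ∧ (∀ j ≤ n1, S ok L j ≤ (10 / 17) ^ (n1 - j) * S ok L n1) ∧
      (∀ p c, n1 ≤ p → (ok p c ↔ V p c)) ∧
      (∀ p c, p < n1 → ok p c → sqf p c ∧ ¬ winBad s F p c) ∧
      ∀ m, 24 * s ≤ m → ∀ c ∈ W ok L m, Leg α (fun i => c (i - 1)) (12 * s) := by
  obtain ⟨q, hq1, hq2, hq3, hq4, hq5⟩ := Pool.Agent.H409R3.Ph1.exists_prefix α L hL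
  have hloc : Local (wn1 s F) := wn1_local (by omega) F
  have hwin : ∀ m < 6, wn1 s F m q := by
    rintro m hm ⟨_, h1, _⟩
    omega
  have h6 : trunc 6 q ∈ W (o1 α L s F) (l1 α L q) 6 :=
    Pool.Agent.H409R3.Ph1.prefix_mem (α := α) (L := L) hloc hwin hq3
  have hqα : ∀ i < 6, q i ≠ α := fun i hi => ne_of_mem_erase (hq1 i hi)
  have h : P1 (o1 α L s F) (l1 α L q) α s F :=
    p1_of (by omega) h6 hqα ⟨hq2.2.1, hq2.2.2.1, hq2.2.2.2⟩
  rcases leg_growth (V := V) h hs hL h6 hq4 hq2.2.1 hq5 (fun i hi => mem_of_mem_erase (hq1 i hi))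
    hsm hV with ⟨τ, n1, t1, t2, t3, t4, t5, t6, t7⟩ | ⟨n1, t3, t4, t5, t6, t7⟩
  · refine ⟨_, n1, t5, by omega, t4, t6, t7, ?_, ?_, ?_⟩
    · intro p c hp
      rw [okF, if_neg (by omega)]
    · intro p c hp hc
      rw [okF, if_pos hp] at hc
      have h1 := all_sqf h hc.2
      have h2 := all_wb h hc.2
      exact ⟨h1, fun h3 => h2 ⟨by omega, h3⟩⟩
    · intro m hm c hc
      exact Pool.Agent.H409R3.Lg.leg_case1 h (by omega) t1 t2 t3 t4 hVw hm hc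
  · refine ⟨_, n1, t5, by omega, t4, t6, t7, ?_, ?_, ?_⟩
    · intro p c hp
      rw [okG, if_neg (by omega)]
    · intro p c hp hc
      rw [okG, if_pos hp] at hc
      have h1 := h.good p c hc.2
      exact ⟨h1.1, fun h3 => h1.2 ⟨by omega, h3⟩⟩
    · intro m hm c hc
      exact Pool.Agent.H409R3.Lg.leg_case2 h (by omega) (by omega) hc

end
end Pool.Agent.H378R3.ND
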