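import Mathlib

/-! Words with local constraints (generalises Pool.Agent.H565.Cyc.Core).
A word of length `m` is a function `ℕ → ℕ` with letters at the places `0, ..., m - 1` and `0` elsewhere;
`ok p c` is an arbitrary condition on the letters `c 0, ..., c p`. -/

set_option autoImplicit false

namespace Pool.Agent.H378R3.ND
open Finset
open scoped Classical

noncomputable section

/-- truncation of a word to its first `j` letters -/
def trunc (j : ℕ) (c : ℕ → ℕ) : ℕ → ℕ := fun i => if i < j then c i else 0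

/-- words of length `m` with letters from the lists -/
def box (ℒ : ℕ → Finset ℕ) : ℕ → Finset (ℕ → ℕ)
  | 0 => {fun _ => 0}
  | m + 1 => ((box ℒ m) ×ˢ (ℒ m)).image (fun p => Function.update p.1 m p.2)

variable {ok : ℕ → (ℕ → ℕ) → Prop} {ℒ : ℕ → Finset ℕ}

lemma mem_box (m : ℕ) (c : ℕ → ℕ) :
    c ∈ box ℒ m ↔ (∀ k < m, c k ∈ ℒ k) ∧ ∀ k, m ≤ k → c k = 0 := by
  induction m generalizing c with
  | zero =>
    simp only [box, mem_singleton, not_lt_zero, false_imp_iff, implies_true, true_and, zero_le]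
    constructor
    · rintro rfl k _; rfl
    · intro h; funext k; exact h k trivial
  | succ m ih =>
    simp only [box, mem_image, mem_product, Prod.exists]
    constructor
    · rintro ⟨w, x, ⟨hw, hx⟩, rfl⟩
      rw [ih] at hw
      refine ⟨fun k hk => ?_, fun k hk => ?_⟩
      · by_cases h : k = m
        · subst h; simpa using hx
        · rw [Function.update_of_ne h]; exact hw.1 k (by omega)
      · rw [Function.update_of_ne (by omega)]; exact hw.2 k (by omega)
    · rintro ⟨h1, h2⟩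
      refine ⟨trunc m c, c m, ⟨?_, h1 m (by omega)⟩, ?_⟩
      · rw [ih]
        refine ⟨fun k hk => ?_, fun k hk => ?_⟩
        · simp only [trunc, if_pos hk]; exact h1 k (by omega)
        · simp [trunc, not_lt.mpr hk]
      · funext k
        by_cases h : k = m
        · subst h; simp
        · rw [Function.update_of_ne h]
          by_cases hk : k < m
          · simp [trunc, hk]
          · simp only [trunc, if_neg hk]; exact (h2 k (by omega)).symm

/-- `ok` is local: `ok p c` depends on the letters at places `≤ p` only -/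
def Local (ok : ℕ → (ℕ → ℕ) → Prop) : Prop :=
  ∀ p c c', (∀ i ≤ p, c i = c' i) → ok p c → ok p c'

/-- the words of length `m` all of whose prefixes satisfy the condition -/
def W (ok : ℕ → (ℕ → ℕ) → Prop) (ℒ : ℕ → Finset ℕ) (m : ℕ) : Finset (ℕ → ℕ) :=
  (box ℒ m).filter (fun c => ∀ p < m, ok p c)

/-- the one letter extensions of the words of length `m` -/
def U (ok : ℕ → (ℕ → ℕ) → Prop) (ℒ : ℕ → Finset ℕ) (m : ℕ) : Finset (ℕ → ℕ) :=
  (box ℒ (m + 1)).filter (fun c => ∀ p < m, ok p c)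

lemma mem_W {m : ℕ} {c : ℕ → ℕ} : c ∈ W ok ℒ m ↔
    ((∀ k < m, c k ∈ ℒ k) ∧ ∀ k, m ≤ k → c k = 0) ∧ ∀ p < m, ok p c := by
  simp only [W, mem_filter, mem_box]

lemma mem_U {m : ℕ} {c : ℕ → ℕ} : c ∈ U ok ℒ m ↔
    ((∀ k < m + 1, c k ∈ ℒ k) ∧ ∀ k, m + 1 ≤ k → c k = 0) ∧ ∀ p < m, ok p c := by
  simp only [U, mem_filter, mem_box]

lemma W_succ (m : ℕ) : W ok ℒ (m + 1) = (U ok ℒ m).filter (fun c => ok m c) := by
  ext c
  rw [mem_filter, mem_W, mem_U]
  constructor
  · rintro ⟨h1, h2⟩
    exact ⟨⟨h1, fun p hp => h2 p (by omega)⟩, h2 m (by omega)⟩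
  · rintro ⟨⟨h1, h2⟩, h3⟩
    refine ⟨h1, fun p hp => ?_⟩
    rcases Nat.lt_succ_iff_lt_or_eq.mp hp with h | h
    · exact h2 p h
    · subst h; exact h3

lemma trunc_mem (hloc : Local ok) {m : ℕ} {c : ℕ → ℕ} (h1 : ∀ k < m, c k ∈ ℒ k)
    (h2 : ∀ p < m, ok p c) : trunc m c ∈ W ok ℒ m := by
  rw [mem_W]
  refine ⟨⟨fun k hk => ?_, fun k hk => ?_⟩, fun p hp => ?_⟩
  · simp only [trunc, if_pos hk]; exact h1 k hk
  · simp [trunc, not_lt.mpr hk]
  · refine hloc p c _ (fun i hi => ?_) (h2 p hp)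
    simp [trunc, show i < m by omega]

lemma trunc_U (hloc : Local ok) {m j : ℕ} {c : ℕ → ℕ} (hc : c ∈ U ok ℒ m) (hj : j ≤ m) :
    trunc j c ∈ W ok ℒ j := by
  rw [mem_U] at hc
  exact trunc_mem hloc (fun k hk => hc.1.1 k (by omega)) (fun p hp => hc.2 p (by omega))

lemma trunc_W (hloc : Local ok) {m j : ℕ} {c : ℕ → ℕ} (hc : c ∈ W ok ℒ m) (hj : j ≤ m) :
    trunc j c ∈ W ok ℒ j := by
  rw [mem_W] at hc
  exact trunc_mem hloc (fun k hk => hc.1.1 k (by omega)) (fun p hp => hc.2 p (by omega))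

lemma sum_U (hloc : Local ok) (m : ℕ) (f : (ℕ → ℕ) → ℚ) :
    ∑ c ∈ U ok ℒ m, f c = ∑ w ∈ W ok ℒ m, ∑ x ∈ ℒ m, f (Function.update w m x) := by
  have himg : U ok ℒ m = ((W ok ℒ m) ×ˢ (ℒ m)).image (fun p => Function.update p.1 m p.2) := by
    ext c
    simp only [mem_image, mem_product, Prod.exists, mem_U]
    constructor
    · rintro ⟨⟨h1, h2⟩, h3⟩
      refine ⟨trunc m c, c m, ⟨trunc_mem hloc (fun k hk => h1 k (by omega)) h3, h1 m (by omega)⟩, ?_⟩
      funext k
      by_cases h : k = m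
      · subst h; simp
      · rw [Function.update_of_ne h]
        by_cases hk : k < m
        · simp [trunc, hk]
        · simp only [trunc, if_neg hk]; exact (h2 k (by omega)).symm
    · rintro ⟨w, x, ⟨hw, hx⟩, rfl⟩
      rw [mem_W] at hw
      refine ⟨⟨fun k hk => ?_, fun k hk => ?_⟩, fun p hp => ?_⟩
      · by_cases h : k = m
        · subst h; simpa using hx
        · rw [Function.update_of_ne h]; exact hw.1.1 k (by omega)
      · rw [Function.update_of_ne (by omega)]; exact hw.1.2 k (by omega)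
      · refine hloc p w _ (fun i hi => ?_) (hw.2 p hp)
        rw [Function.update_of_ne (by omega)]
  rw [himg, sum_image, sum_product]
  rintro ⟨w, x⟩ h1 ⟨w', x'⟩ h2 h
  simp only [coe_product, Set.mem_prod, mem_coe, mem_W] at h1 h2
  simp only at h
  have hx : x = x' := by
    have := congrFun h m
    simpa using this
  have hw : w = w' := by
    funext k
    by_cases hk : k = m
    · subst hk
      rw [h1.1.1.2 k le_rfl, h2.1.1.2 k le_rfl]
    · have := congrFun h k
      rwa [Function.update_of_ne hk, Function.update_of_ne hk] at this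
  rw [hx, hw]

/-- The basic injection bound: a set `B` of words of length `m`, whose truncations to length `j` are
admissible and whose letters at places `≥ j` are determined by the first `j` letters through a
function `D`. -/
lemma inj_bound {B : Finset (ℕ → ℕ)} {m j : ℕ} (D : (ℕ → ℕ) → ℕ → ℕ)
    (hB0 : ∀ c ∈ B, ∀ k, m ≤ k → c k = 0) (hBW : ∀ c ∈ B, trunc j c ∈ W ok ℒ j)
    (hD : ∀ c ∈ B, ∀ k, j ≤ k → k < m → c k = D (trunc j c) k)
    (f g : (ℕ → ℕ) → ℚ) (hfg : ∀ c ∈ B, f c ≤ g (trunc j c)) (hg : ∀ v ∈ W ok ℒ j, 0 ≤ g v) :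
    ∑ c ∈ B, f c ≤ ∑ v ∈ W ok ℒ j, g v := by
  calc ∑ c ∈ B, f c ≤ ∑ c ∈ B, g (trunc j c) := sum_le_sum hfg
    _ = ∑ v ∈ B.image (trunc j), g v := by
        rw [sum_image]
        intro c hc c' hc' h
        funext k
        by_cases h1 : k < j
        · have := congrFun h k
          simpa [trunc, h1] using this
        · by_cases h2 : k < m
          · rw [hD c hc k (by omega) h2, hD c' hc' k (by omega) h2, h]
          · rw [hB0 c hc k (by omega), hB0 c' hc' k (by omega)]
    _ ≤ ∑ v ∈ W ok ℒ j, g v := by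
        apply sum_le_sum_of_subset_of_nonneg
        · intro v hv
          obtain ⟨c, hc, rfl⟩ := mem_image.mp hv
          exact hBW c hc
        · intro v hv _; exact hg v hv

/-- number of words -/
def N (ok : ℕ → (ℕ → ℕ) → Prop) (ℒ : ℕ → Finset ℕ) (m : ℕ) : ℚ := ((W ok ℒ m).card : ℚ)

lemma N_nonneg (m : ℕ) : 0 ≤ N ok ℒ m := by unfold N; positivity

lemma N_eq (m : ℕ) : N ok ℒ m = ∑ c ∈ W ok ℒ m, (1 : ℚ) := by simp [N]

end
end Pool.Agent.H378R3.ND
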