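import Pool.Agent.H565.Win.Prov
import Pool.Agent.H401R3.SD.Edge

/-! The provider in the form needed for the edge assembly. -/

set_option autoImplicit false

namespace Pool.Agent.H378R3.ND
open Finset Pool.Agent.H565.Win Pool.Agent.H409R3.Sub Pool.Agent.H401R3.SD.Wd
open scoped Classical

theorem prov : Provider := by
  intro K
  obtain ⟨s0, h0, h⟩ := Pool.Agent.H565.Win.provider K
  refine ⟨s0, fun s hs L α hL => ⟨?_, ?_⟩⟩
  · intro F hF
    obtain ⟨ok, a1, a2, a3, a4, a5⟩ := h s hs L hL α F hF []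
    refine ⟨ok, fun p c hc => ?_, fun c hc => a3 (40 * s) (by omega) c hc,
      a5 rfl (40 * s) (by omega) le_rfl⟩
    obtain ⟨b1, b2, b3⟩ := a1 p c hc
    refine ⟨b1, b2, b3, fun a _ h5 => ?_⟩
    have := congrArg List.length h5
    simp [win] at this
  · intro F hF G hG
    obtain ⟨ok, a1, a2, a3, a4, a5⟩ := h s hs L hL α F hF G
    refine ⟨ok, fun p c hc => ?_, a2, fun c hc => a3 (40 * s - 10) (by omega) c hc,
      a4 (40 * s - 10) (by omega) (by omega)⟩
    obtain ⟨b1, b2, b3⟩ := a1 p c hc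
    refine ⟨b1, b2, b3, fun a _ h5 => ?_⟩
    have := congrArg List.length h5
    simp [win] at this

end Pool.Agent.H378R3.ND
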