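import Pool.Agent.H378R3.ND.Ph2Main
import Pool.Agent.H565.Win.Cost

/-! Leg assembly, case 1: the family with the first `α` at place `τ - 1`. -/

set_option autoImplicit false

namespace Pool.Agent.H378R3.ND
open Finset Pool.Agent.H565.Win
open scoped Classical

noncomputable section

/-- no square ends at place `p` -/
def sqf (p : ℕ) (c : ℕ → ℕ) : Prop := ∀ t, 1 ≤ t → ¬ Sq t p c

/-- the window condition is violated -/
def wb (s : ℕ) (F : Finset (List ℕ)) (p : ℕ) (c : ℕ → ℕ) : Prop := p ≤ 15 * s ∧ winBad s F p c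

/-- pattern words of length `k` -/
def pat (k : ℕ) (c : ℕ → ℕ) : Prop :=
  c (k-1) = c (k-3) ∨ c (k-1) = c (k-4) ∨ (c (k-1) = c (k-5) ∧ c (k-2) ≠ c (k-4))

/-- the rules of a leg whose first `α` is at place `τ - 1` -/
def okC (ok1 : ℕ → (ℕ → ℕ) → Prop) (α s : ℕ) (F : Finset (List ℕ)) (τ p : ℕ) (c : ℕ → ℕ) : Prop :=
  if p + 1 < τ then ok1 p c
  else if p + 1 = τ then pat p c ∧ sqf p c ∧ ¬ wb s F p c
  else sqf p c ∧ AlwC α p c ∧ ¬ KEv τ p c ∧ ¬ LEv α τ p c ∧ ¬ wb s F p c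

/-- the lists of a leg whose first `α` is at place `τ - 1` -/
def liC (ℒ1 L : ℕ → Finset ℕ) (α τ k : ℕ) : Finset ℕ :=
  if k + 1 < τ then ℒ1 k else if k + 1 = τ then {α} else L k

/-- what phase 1 delivers -/
structure P1 (ok1 : ℕ → (ℕ → ℕ) → Prop) (ℒ1 : ℕ → Finset ℕ) (α s : ℕ) (F : Finset (List ℕ)) :
    Prop where
  loc : Local ok1
  good : ∀ p c, ok1 p c → sqf p c ∧ ¬ wb s F p c
  nα : ∀ k, α ∉ ℒ1 k
  one : ∀ k, k ≤ 6 → N ok1 ℒ1 k ≤ 1
  six : 1 ≤ N ok1 ℒ1 6
  l0 : ∀ m, 6 ≤ m → ∀ c ∈ W ok1 ℒ1 m, c 0 ≠ c 2 ∧ c 0 ≠ c 3 ∧ ¬ (c 0 = c 4 ∧ c 1 ≠ c 3)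

lemma Sq_congr {t p : ℕ} {c c' : ℕ → ℕ} (h : ∀ i ≤ p, c i = c' i) (hs : Sq t p c) : Sq t p c' := by
  refine ⟨hs.1, fun i hi => ?_⟩
  have h1 := hs.1
  rw [← h _ (by omega), ← h _ (by omega)]
  exact hs.2 i hi

lemma sqf_congr {p : ℕ} {c c' : ℕ → ℕ} (h : ∀ i ≤ p, c i = c' i) (hs : sqf p c) : sqf p c' :=
  fun t ht h' => hs t ht (Sq_congr (fun i hi => (h i hi).symm) h')

lemma wb_congr {s p : ℕ} {F : Finset (List ℕ)} (hs : 1 ≤ s) {c c' : ℕ → ℕ}
    (h : ∀ i ≤ p, c i = c' i) (hw : ¬ wb s F p c) : ¬ wb s F p c' := by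
  rintro ⟨h1, h2⟩
  exact winBad_local s F hs p c c' h (fun h3 => hw ⟨h1, h3⟩) h2

lemma okC_local {ok1 : ℕ → (ℕ → ℕ) → Prop} {α s : ℕ} {F : Finset (List ℕ)} {τ : ℕ}
    (h1 : Local ok1) (hs : 1 ≤ s) : Local (okC ok1 α s F τ) := by
  intro p c c' h hc
  unfold okC at hc ⊢
  split_ifs at hc ⊢ with a b
  · exact h1 p c c' h hc
  · refine ⟨?_, sqf_congr h hc.2.1, wb_congr hs h hc.2.2⟩
    have := hc.1
    unfold pat at this ⊢
    rwa [h _ (by omega), h _ (by omega), h _ (by omega), h _ (by omega), h _ (by omega)] at this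
  · refine ⟨sqf_congr h hc.1, ?_, ?_, ?_, wb_congr hs h hc.2.2.2.2⟩
    · have := hc.2.1
      unfold AlwC at this ⊢
      rwa [h _ (by omega), h _ (by omega), h _ (by omega), h _ (by omega), h _ (by omega),
        h _ le_rfl] at this
    · rintro ⟨k1, k2⟩
      apply hc.2.2.1
      refine ⟨k1, fun r hr => ?_⟩
      rw [h _ (by omega), h _ (by omega)]
      exact k2 r hr
    · rintro ⟨k1, k2, k3⟩
      apply hc.2.2.2.1
      refine ⟨k1, ?_, fun r hr => ?_⟩
      · rw [h _ (by omega)]; exact k2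
      · rw [h _ (by omega), h _ (by omega)]
        exact k3 r hr

section

variable {ok1 : ℕ → (ℕ → ℕ) → Prop} {ℒ1 L : ℕ → Finset ℕ} {α s : ℕ} {F : Finset (List ℕ)} {τ : ℕ}

lemma W_small {m : ℕ} (hm : m < τ) :
    W (okC ok1 α s F τ) (liC ℒ1 L α τ) m = W ok1 ℒ1 m := by
  ext c
  rw [mem_W, mem_W]
  constructor
  · rintro ⟨⟨h1, h2⟩, h3⟩
    refine ⟨⟨fun k hk => ?_, h2⟩, fun p hp => ?_⟩
    · have := h1 k hk
      rwa [liC, if_pos (by omega)] at this
    · have := h3 p hp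
      rwa [okC, if_pos (by omega)] at this
  · rintro ⟨⟨h1, h2⟩, h3⟩
    refine ⟨⟨fun k hk => ?_, h2⟩, fun p hp => ?_⟩
    · rw [liC, if_pos (by omega)]; exact h1 k hk
    · rw [okC, if_pos (by omega)]; exact h3 p hp

lemma all_sqf (h : P1 ok1 ℒ1 α s F) {p : ℕ} {c : ℕ → ℕ} (hc : okC ok1 α s F τ p c) : sqf p c := by
  unfold okC at hc
  split_ifs at hc with a b
  · exact (h.good p c hc).1
  · exact hc.2.1
  · exact hc.1

lemma all_wb (h : P1 ok1 ℒ1 α s F) {p : ℕ} {c : ℕ → ℕ} (hc : okC ok1 α s F τ p c) : ¬ wb s F p c := by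
  unfold okC at hc
  split_ifs at hc with a b
  · exact (h.good p c hc).2
  · exact hc.2.2
  · exact hc.2.2.2.2

lemma sqf_ne {p : ℕ} {c : ℕ → ℕ} (h : sqf p c) (hp : 1 ≤ p) : c (p - 1) ≠ c p := by
  intro he
  apply h 1 le_rfl
  refine ⟨by omega, fun i hi => ?_⟩
  have : i = 0 := by omega
  subst this
  have e1 : p + 1 - 2 * 1 + 0 = p - 1 := by omega
  have e2 : p + 1 - 1 + 0 = p := by omega
  rw [e1, e2]; exact he

lemma sqf_two {p : ℕ} {c : ℕ → ℕ} (h : sqf p c) (hp : 3 ≤ p) :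
    ¬ (c (p - 3) = c (p - 1) ∧ c (p - 2) = c p) := by
  rintro ⟨h1, h2⟩
  apply h 2 (by norm_num)
  refine ⟨by omega, fun i hi => ?_⟩
  have : i = 0 ∨ i = 1 := by omega
  rcases this with rfl | rfl
  · have e1 : p + 1 - 2 * 2 + 0 = p - 3 := by omega
    have e2 : p + 1 - 2 + 0 = p - 1 := by omega
    rw [e1, e2]; exact h1
  · have e1 : p + 1 - 2 * 2 + 1 = p - 2 := by omega
    have e2 : p + 1 - 2 + 1 = p := by omega
    rw [e1, e2]; exact h2

/-- the letters of the words of the family -/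
lemma letters (h : P1 ok1 ℒ1 α s F) {m : ℕ} (hm : τ ≤ m) (hτ : 7 ≤ τ) {c : ℕ → ℕ}
    (hc : c ∈ W (okC ok1 α s F τ) (liC ℒ1 L α τ) m) :
    c (τ - 1) = α ∧ (∀ i, i < τ - 1 → c i ≠ α) ∧ (∀ p, p < m → sqf p c) ∧
      ∀ p, τ ≤ p → p < m → AlwC α p c := by
  rw [mem_W] at hc
  obtain ⟨⟨h1, h2⟩, h3⟩ := hc
  refine ⟨?_, ?_, fun p hp => all_sqf h (h3 p hp), ?_⟩
  · have := h1 (τ - 1) (by omega)
    rw [liC, if_neg (by omega), if_pos (by omega), mem_singleton] at this
    exact this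
  · intro i hi he
    have := h1 i (by omega)
    rw [liC, if_pos (by omega), he] at this
    exact h.nα i this
  · intro p hp1 hp2
    have := h3 p hp2
    rw [okC, if_neg (by omega), if_neg (by omega)] at this
    exact this.2.1

theorem case1_P2 (h : P1 ok1 ℒ1 α s F) (hs : 1 ≤ s) (hτ : 7 ≤ τ) (hL : ∀ k, 4 ≤ (L k).card)
    (hbad : ∀ m, τ ≤ m → (∀ j, τ ≤ j → j < m →
      37 / 20 * Wt (okC ok1 α s F τ) (liC ℒ1 L α τ) α j ≤
        Wt (okC ok1 α s F τ) (liC ℒ1 L α τ) α (j + 1)) →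
      1000 * (((U (okC ok1 α s F τ) (liC ℒ1 L α τ) m).filter (wb s F m)).card : ℚ) ≤
        1 / 200 * Wt (okC ok1 α s F τ) (liC ℒ1 L α τ) α m) :
    P2 (okC ok1 α s F τ) (liC ℒ1 L α τ) α τ (wb s F) where
  loc := okC_local h.loc hs
  hτ := hτ
  hL := fun k hk => by rw [liC, if_neg (by omega), if_neg (by omega)]; exact hL k
  hv := fun m hm c hc => by
    obtain ⟨l1, l2, l3, l4⟩ := letters h hm hτ hc
    have e1 := sqf_ne (l3 (m - 4) (by omega)) (by omega)
    have e2 := sqf_ne (l3 (m - 3) (by omega)) (by omega)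
    have e3 := sqf_ne (l3 (m - 2) (by omega)) (by omega)
    have e4 := sqf_ne (l3 (m - 1) (by omega)) (by omega)
    have s1 := sqf_two (l3 (m - 2) (by omega)) (by omega)
    have s2 := sqf_two (l3 (m - 1) (by omega)) (by omega)
    have i1 : m - 4 - 1 = m - 5 := by omega
    have i2 : m - 3 - 1 = m - 4 := by omega
    have i3 : m - 2 - 1 = m - 3 := by omega
    have i4 : m - 1 - 1 = m - 2 := by omega
    have i5 : m - 2 - 3 = m - 5 := by omega
    have i6 : m - 2 - 2 = m - 4 := by omega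
    have i7 : m - 1 - 3 = m - 4 := by omega
    have i8 : m - 1 - 2 = m - 3 := by omega
    have i9 : m - 1 - 4 = m - 5 := by omega
    rw [i1] at e1
    rw [i2] at e2
    rw [i3] at e3
    rw [i4] at e4
    rw [i5, i3, i6] at s1
    rw [i7, i4, i8] at s2
    have q5 : c (m - 5) = α → τ ≤ m - 2 := by
      intro he
      by_contra hcon
      exact l2 (m - 5) (by omega) he
    have q4 : c (m - 4) = α → τ ≤ m - 1 := by
      intro he
      by_contra hcon
      exact l2 (m - 4) (by omega) he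
    refine ⟨e1, e2, e3, e4, s1, s2, ?_, ?_, ?_⟩
    · rintro ⟨a, b, d, e⟩
      have := l4 (m - 2) (q5 a) (by omega)
      unfold AlwC Alw at this
      rw [i5, i6, i3] at this
      exact this.2.2.2.1 ⟨a, b, d, e.symm⟩
    · rintro ⟨a, b, d, e⟩
      have := l4 (m - 1) (q4 a) (by omega)
      unfold AlwC Alw at this
      rw [i7, i8, i4] at this
      exact this.2.2.2.1 ⟨a, b, d, e.symm⟩
    · rintro ⟨a, b, d, f, e⟩
      have := l4 (m - 1) (by have := q5 a; omega) (by omega)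
      unfold AlwC Alw at this
      rw [i9, i7, i8, i4] at this
      exact this.2.2.2.2.1 ⟨a, b, d, f, e.symm⟩
  hα := fun m hm c hc => (letters h hm hτ hc).1
  hα' := fun m hm c hc => (letters h hm hτ hc).2.1
  h03 := fun m hm c hc => by
    have hc6 := trunc_W (okC_local h.loc hs) hc (show 6 ≤ m by omega)
    rw [W_small (by omega)] at hc6
    have := (h.l0 6 le_rfl _ hc6).2.1
    simpa [trunc] using this
  hA := fun p c hp hc => by
    rw [okC, if_neg (by omega), if_neg (by omega)] at hc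
    exact hc.2.1
  hok := fun m hm c hc hA => by
    by_cases hw : wb s F m c
    · exact Or.inr (Or.inr (Or.inr (Or.inr hw)))
    by_cases hk : KEv τ m c
    · exact Or.inr (Or.inr (Or.inl hk))
    by_cases hl : LEv α τ m c
    · exact Or.inr (Or.inr (Or.inr (Or.inl hl)))
    by_cases hq : sqf m c
    · left
      rw [okC, if_neg (by omega), if_neg (by omega)]
      exact ⟨hq, hA, hk, hl, hw⟩
    · right; left
      unfold sqf at hq
      push Not at hq
      obtain ⟨t, ht, hS⟩ := hq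
      have hm1 := hS.1
      have hS2 := hS.2
      have hcW := trunc_U (okC_local h.loc hs) hc le_rfl
      obtain ⟨l1, l2, _, _⟩ := letters h hm hτ hcW
      simp only [trunc, if_pos (show τ - 1 < m by omega)] at l1
      have l2' : ∀ i, i < τ - 1 → c i ≠ α := by
        intro i hi
        have := l2 i hi
        simpa only [trunc, if_pos (show i < m by omega)] using this
      have hA' := hA
      unfold AlwC Alw at hA'
      refine ⟨t, ?_, ?_, hS⟩
      · by_contra hcon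
        have : t = 1 ∨ t = 2 ∨ t = 3 := by omega
        rcases this with rfl | rfl | rfl
        · have := hS2 0 (by norm_num)
          have e1 : m + 1 - 2 * 1 + 0 = m - 1 := by omega
          have e2 : m + 1 - 1 + 0 = m := by omega
          rw [e1, e2] at this
          exact hA'.1 this.symm
        · have r0 := hS2 0 (by norm_num)
          have r1 := hS2 1 (by norm_num)
          have e1 : m + 1 - 2 * 2 + 0 = m - 3 := by omega
          have e2 : m + 1 - 2 + 0 = m - 1 := by omega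
          have e3 : m + 1 - 2 * 2 + 1 = m - 2 := by omega
          have e4 : m + 1 - 2 + 1 = m := by omega
          rw [e1, e2] at r0
          rw [e3, e4] at r1
          exact hA'.2.1 ⟨r0, r1.symm⟩
        · have r0 := hS2 0 (by norm_num)
          have r1 := hS2 1 (by norm_num)
          have r2 := hS2 2 (by norm_num)
          have e1 : m + 1 - 2 * 3 + 0 = m - 5 := by omega
          have e2 : m + 1 - 3 + 0 = m - 2 := by omega
          have e3 : m + 1 - 2 * 3 + 1 = m - 4 := by omega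
          have e4 : m + 1 - 3 + 1 = m - 1 := by omega
          have e5 : m + 1 - 2 * 3 + 2 = m - 3 := by omega
          have e6 : m + 1 - 3 + 2 = m := by omega
          rw [e1, e2] at r0
          rw [e3, e4] at r1
          rw [e5, e6] at r2
          exact hA'.2.2.1 ⟨r0, r1, r2.symm⟩
      · by_contra hcon
        -- the second half contains the place τ - 1
        have hr := hS2 (τ - 1 - (m + 1 - t)) (by omega)
        have e2 : m + 1 - t + (τ - 1 - (m + 1 - t)) = τ - 1 := by omega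
        rw [e2, l1] at hr
        exact l2' _ (by omega) hr
  hbad := hbad

end

end
end Pool.Agent.H378R3.ND
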