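import Pool.Agent.H378R3.ND.LegA

/-! Growth of the leg, case 1. -/

set_option autoImplicit false

namespace Pool.Agent.H378R3.ND
open Finset Pool.Agent.H565.Win
open scoped Classical

noncomputable section

lemma chain {w : ℕ → ℚ} {a b : ℕ} {r : ℚ} (hr : 0 < r)
    (ih : ∀ j, a ≤ j → j < b → r * w j ≤ w (j + 1)) :
    ∀ k j, a ≤ j → j + k = b → w j ≤ (1 / r) ^ k * w b := by
  intro k
  induction k with
  | zero => intro j _ h; simp at h; subst h; simp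
  | succ k ihk =>
    intro j hj hjm
    have h1 := ih j hj (by omega)
    have h2 := ihk (j + 1) (by omega) (by omega)
    rw [pow_succ]
    have h3 : w j ≤ 1 / r * w (j + 1) := by
      rw [div_mul_eq_mul_div, one_mul, le_div_iff₀ hr]; linarith
    calc w j ≤ 1 / r * w (j + 1) := h3
      _ ≤ 1 / r * ((1 / r) ^ k * w b) := mul_le_mul_of_nonneg_left h2 (by positivity)
      _ = (1 / r) ^ k * (1 / r) * w b := by ring

/-- the place `n1` of a record -/
lemma record (S : ℕ → ℚ) (A B : ℕ) (hAB : A ≤ B) 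
    (hlow : ∀ j < A, S j ≤ (10 / 17) ^ (B - j) * S B) :
    ∃ n1, A ≤ n1 ∧ n1 ≤ B ∧ ∀ j ≤ n1, S j ≤ (10 / 17) ^ (n1 - j) * S n1 := by
  obtain ⟨n1, hn1, hmax⟩ := exists_max_image (Icc A B) (fun j => (10 / 17 : ℚ) ^ j * S j)
    ⟨A, by simp [hAB]⟩
  rw [mem_Icc] at hn1
  refine ⟨n1, hn1.1, hn1.2, fun j hj => ?_⟩
  have key : (10 / 17 : ℚ) ^ j * S j ≤ (10 / 17) ^ n1 * S n1 := by
    rcases Nat.lt_or_ge j A with h | h
    · have h1 := hlow j h
      have h2 : (10 / 17 : ℚ) ^ B * S B ≤ (10 / 17) ^ n1 * S n1 := hmax B (by simp [hAB])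
      refine le_trans ?_ h2
      calc (10 / 17 : ℚ) ^ j * S j ≤ (10 / 17) ^ j * ((10 / 17) ^ (B - j) * S B) :=
            mul_le_mul_of_nonneg_left h1 (by positivity)
        _ = (10 / 17) ^ (j + (B - j)) * S B := by rw [pow_add]; ring
        _ = (10 / 17) ^ B * S B := by rw [Nat.add_sub_cancel' (by omega)]
    · exact hmax j (by simp; omega)
  have e : (10 / 17 : ℚ) ^ n1 = (10 / 17) ^ j * (10 / 17) ^ (n1 - j) := by
    rw [← pow_add, Nat.add_sub_cancel' hj]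
  rw [e, mul_assoc] at key
  exact le_of_mul_le_mul_left key (by positivity)

lemma p85 : (85 / 86 : ℚ) ^ 1200 ≤ 1 / 531441 := by
  have h1 : (85 / 86 : ℚ) ^ 100 ≤ 1 / 3 := by norm_num
  calc (85 / 86 : ℚ) ^ 1200 = ((85 / 86) ^ 100) ^ 12 := by rw [← pow_mul]
    _ ≤ (1 / 3) ^ 12 := pow_le_pow_left₀ (by positivity) h1 12
    _ = 1 / 531441 := by norm_num

lemma low_pow {k : ℕ} (hk : 1200 ≤ k) : (8250 : ℚ) * (25 / 43) ^ (k - 7) ≤ (10 / 17) ^ k := by
  obtain ⟨d, rfl⟩ : ∃ d, k = d + 7 := ⟨k - 7, by omega⟩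
  rw [Nat.add_sub_cancel]
  have e : (25 / 43 : ℚ) ^ d = (43 / 25) ^ 7 * ((10 / 17) ^ (d + 7) * (85 / 86) ^ (d + 7)) := by
    rw [← mul_pow, pow_add, mul_comm, mul_assoc, show (10 / 17 * (85 / 86) : ℚ) = 25 / 43 by norm_num,
      ← mul_pow]
    norm_num
  rw [e]
  have h1 : (85 / 86 : ℚ) ^ (d + 7) ≤ 1 / 531441 :=
    (pow_le_pow_of_le_one (by norm_num) (by norm_num) hk).trans p85
  have h2 : (0 : ℚ) < (10 / 17) ^ (d + 7) := by positivity
  have h3 : (8250 : ℚ) * (43 / 25) ^ 7 ≤ 531441 := by norm_num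
  have h4 : (0 : ℚ) ≤ (85 / 86) ^ (d + 7) := by positivity
  calc (8250 : ℚ) * ((43 / 25) ^ 7 * ((10 / 17) ^ (d + 7) * (85 / 86) ^ (d + 7)))
      = (8250 * (43 / 25) ^ 7) * (85 / 86) ^ (d + 7) * (10 / 17) ^ (d + 7) := by ring
    _ ≤ 531441 * (1 / 531441) * (10 / 17) ^ (d + 7) := by
        refine mul_le_mul_of_nonneg_right ?_ h2.le
        exact mul_le_mul h3 h1 h4 (by norm_num)
    _ = (10 / 17) ^ (d + 7) := by norm_num

section

variable {ok1 : ℕ → (ℕ → ℕ) → Prop} {ℒ1 L : ℕ → Finset ℕ} {α s : ℕ} {F : Finset (List ℕ)} {τ : ℕ}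

/-- growth in phase 1, backwards -/
lemma back1 (h : P1 ok1 ℒ1 α s F) {b : ℕ} (hb : 6 ≤ b)
    (hgr : ∀ j, 6 ≤ j → j < b → 43 / 25 * N ok1 ℒ1 j ≤ N ok1 ℒ1 (j + 1)) :
    ∀ j ≤ b, N ok1 ℒ1 j ≤ (25 / 43) ^ (b - 6 - j) * N ok1 ℒ1 b := by
  intro j hj
  have hN := N_nonneg (ok := ok1) (ℒ := ℒ1) b
  have hc := chain (w := N ok1 ℒ1) (by norm_num : (0 : ℚ) < 43 / 25) hgr
  have e : (1 / (43 / 25) : ℚ) = 25 / 43 := by norm_num
  rw [e] at hc
  rcases Nat.lt_or_ge j 6 with h6 | h6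
  · have h1 := h.one j h6.le
    have h2 := h.six
    have h3 := hc (b - 6) 6 le_rfl (by omega)
    calc N ok1 ℒ1 j ≤ (25 / 43) ^ (b - 6) * N ok1 ℒ1 b := by linarith
      _ ≤ (25 / 43) ^ (b - 6 - j) * N ok1 ℒ1 b := by
        refine mul_le_mul_of_nonneg_right ?_ hN
        exact pow_le_pow_of_le_one (by norm_num) (by norm_num) (by omega)
  · calc N ok1 ℒ1 j ≤ (25 / 43) ^ (b - j) * N ok1 ℒ1 b := hc (b - j) j h6 (by omega)
      _ ≤ (25 / 43) ^ (b - 6 - j) * N ok1 ℒ1 b := by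
        refine mul_le_mul_of_nonneg_right ?_ hN
        exact pow_le_pow_of_le_one (by norm_num) (by norm_num) (by omega)

lemma N_small {m : ℕ} (hm : m < τ) :
    N (okC ok1 α s F τ) (liC ℒ1 L α τ) m = N ok1 ℒ1 m := by
  unfold N; rw [W_small hm]

/-- the cost of the windows -/
lemma wb_cost {ok : ℕ → (ℕ → ℕ) → Prop} {ℒ : ℕ → Finset ℕ} (hloc : Local ok) (hs : 1 ≤ s) (m : ℕ)
    {C : ℚ} (hC : 0 ≤ C) (hN : s ≤ m + 1 → N ok ℒ (m + 1 - s) ≤ C) :
    (((U ok ℒ m).filter (wb s F m)).card : ℚ) ≤ ((F.card : ℚ) + 30 * s + 2) * C := by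
  by_cases h1 : m ≤ 15 * s ∧ s ≤ m + 1
  · have h2 := win_cost (ok := ok) (ℒ := ℒ) hloc s hs F m h1.2 (fun _ => 1) (fun _ _ => le_rfl)
    rw [sum_const, nsmul_eq_mul, mul_one] at h2
    have h3 : ((U ok ℒ m).filter (wb s F m)).card ≤ ((U ok ℒ m).filter (winBad s F m)).card :=
      card_le_card (monotone_filter_right _ (fun c _ hc => hc.2))
    have h3' : (((U ok ℒ m).filter (wb s F m)).card : ℚ) ≤
      (((U ok ℒ m).filter (winBad s F m)).card : ℚ) := by exact_mod_cast h3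
    have h4 : (m : ℚ) ≤ 15 * s := by exact_mod_cast h1.1
    have h5 := N_nonneg (ok := ok) (ℒ := ℒ) (m + 1 - s)
    calc (((U ok ℒ m).filter (wb s F m)).card : ℚ) ≤
          ((F.card : ℚ) + 2 * ((m : ℚ) + 1)) * N ok ℒ (m + 1 - s) := h3'.trans h2
      _ ≤ ((F.card : ℚ) + 30 * s + 2) * C := by
        refine mul_le_mul (by linarith) (hN h1.2) h5 (by positivity)
  · have : (U ok ℒ m).filter (wb s F m) = ∅ := by
      rw [filter_eq_empty_iff]
      rintro c _ ⟨a, b, _⟩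
      exact h1 ⟨a, b⟩
    rw [this, card_empty]
    push_cast
    positivity

theorem loss (h : P1 ok1 ℒ1 α s F) (hs : 8 ≤ s) (hτ : 7 ≤ τ)
    (hgr : ∀ j, 6 ≤ j → j < τ - 1 → 43 / 25 * N ok1 ℒ1 j ≤ N ok1 ℒ1 (j + 1))
    (hpat : 1 / 1000 * N ok1 ℒ1 (τ - 1) ≤ (((W ok1 ℒ1 (τ - 1)).filter (pat (τ - 1))).card : ℚ))
    (hsm : ((F.card : ℚ) + 30 * s + 2) * (25 / 43) ^ (s - 8) ≤ 1 / 100000000) :
    N ok1 ℒ1 (τ - 1) ≤ 1200 * N (okC ok1 α s F τ) (liC ℒ1 L α τ) τ := by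
  have hloc := okC_local (α := α) (F := F) (τ := τ) h.loc (show 1 ≤ s by omega)
  set k := τ - 1 with hk
  have hN := N_nonneg (ok := ok1) (ℒ := ℒ1) k
  -- the bad windows
  have hw := wb_cost (F := F) (ok := okC ok1 α s F τ) (ℒ := liC ℒ1 L α τ) hloc
    (show 1 ≤ s by omega) k (C := (25 / 43) ^ (s - 8) * N ok1 ℒ1 k) (by positivity) (by
      intro hsk
      rw [N_small (by omega)]
      refine (back1 h (by omega) hgr (k + 1 - s) (by omega)).trans ?_
      refine mul_le_mul_of_nonneg_right ?_ hN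
      exact pow_le_pow_of_le_one (by norm_num) (by norm_num) (by omega))
  have hw' : (((U (okC ok1 α s F τ) (liC ℒ1 L α τ) k).filter (wb s F k)).card : ℚ) ≤
      1 / 100000000 * N ok1 ℒ1 k := by
    refine hw.trans ?_
    rw [← mul_assoc]
    exact mul_le_mul_of_nonneg_right hsm hN
  -- the words with the pattern
  have h1 := sum_U (ok := okC ok1 α s F τ) (ℒ := liC ℒ1 L α τ) hloc k
    (fun c => if pat k c then (1 : ℚ) else 0)
  have e1 : liC ℒ1 L α τ k = {α} := by rw [liC, if_neg (by omega), if_pos (by omega)]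
  rw [e1, W_small (by omega)] at h1
  simp only [sum_singleton] at h1
  have h2 : ∑ w ∈ W ok1 ℒ1 k, (if pat k (Function.update w k α) then (1 : ℚ) else 0) =
      (((W ok1 ℒ1 k).filter (pat k)).card : ℚ) := by
    rw [← sum_boole]
    refine sum_congr rfl fun w _ => ?_
    have : pat k (Function.update w k α) ↔ pat k w := by
      unfold pat
      rw [Function.update_of_ne (by omega), Function.update_of_ne (by omega),
        Function.update_of_ne (by omega), Function.update_of_ne (by omega),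
        Function.update_of_ne (by omega)]
    simp only [this]
  rw [h2] at h1
  have h3 : ∑ c ∈ U (okC ok1 α s F τ) (liC ℒ1 L α τ) k, (if pat k c then (1 : ℚ) else 0) ≤
      ∑ c ∈ U (okC ok1 α s F τ) (liC ℒ1 L α τ) k, ((if okC ok1 α s F τ k c then (1 : ℚ) else 0) +
        (if wb s F k c then (1 : ℚ) else 0)) := by
    refine sum_le_sum fun c hc => ?_
    by_cases hp : pat k c
    · by_cases hwb : wb s F k c
      · rw [if_pos hp, if_pos hwb]
        split_ifs <;> norm_num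
      · have hsq : sqf k c := by
          intro t ht hS
          rw [mem_U] at hc
          have hck := hc.1.1 k (by omega)
          rw [e1, mem_singleton] at hck
          have h4 := hS.1
          have h5 := hS.2 (t - 1) (by omega)
          have e2 : k + 1 - t + (t - 1) = k := by omega
          rw [e2, hck] at h5
          have h6 := hc.1.1 (k + 1 - 2 * t + (t - 1)) (by omega)
          rw [liC, if_pos (by omega), h5] at h6
          exact h.nα _ h6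
        have hok : okC ok1 α s F τ k c := by
          rw [okC, if_neg (by omega), if_pos (by omega)]
          exact ⟨hp, hsq, hwb⟩
        rw [if_pos hp, if_pos hok, if_neg hwb]; norm_num
    · rw [if_neg hp]
      split_ifs <;> norm_num
  rw [h1, sum_add_distrib, sum_boole, sum_boole, ← W_succ] at h3
  have e3 : k + 1 = τ := by omega
  rw [e3] at h3
  change _ ≤ N (okC ok1 α s F τ) (liC ℒ1 L α τ) τ + _ at h3
  linarith

/-- all the sizes in terms of the last one -/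
lemma all_back (h : P1 ok1 ℒ1 α s F) (hτ : 7 ≤ τ) {ok : ℕ → (ℕ → ℕ) → Prop} {ℒ : ℕ → Finset ℕ}
    (hN : ∀ j, j < τ → N ok ℒ j = N ok1 ℒ1 j)
    (hgr : ∀ j, 6 ≤ j → j < τ - 1 → 43 / 25 * N ok1 ℒ1 j ≤ N ok1 ℒ1 (j + 1))
    (hl : N ok1 ℒ1 (τ - 1) ≤ 1200 * N ok ℒ τ) {m : ℕ} (hm : τ ≤ m)
    (hg : ∀ j, τ ≤ j → j < m → 37 / 20 * Wt ok ℒ α j ≤ Wt ok ℒ α (j + 1)) :
    ∀ j ≤ m, N ok ℒ j ≤ 6 * (25 / 43) ^ (m - 7 - j) * Wt ok ℒ α m := by
  intro j hj
  have hW := Wt_nonneg (ok := ok) (ℒ := ℒ) (α := α) m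
  have hWτ := Wt_nonneg (ok := ok) (ℒ := ℒ) (α := α) τ
  rcases Nat.lt_or_ge j τ with h1 | h1
  · have a1 := back1 h (b := τ - 1) (by omega) hgr j (by omega)
    rw [← hN j h1] at a1
    have a2 := N_le_Wt (ok := ok) (ℒ := ℒ) (α := α) τ
    have a3 := pow_chain hg (m - τ) τ le_rfl (by omega)
    have a4 : (20 / 37 : ℚ) ^ (m - τ) ≤ (25 / 43) ^ (m - τ) :=
      pow_le_pow_left₀ (by norm_num) (by norm_num) _
    have a5 : Wt ok ℒ α τ ≤ (25 / 43) ^ (m - τ) * Wt ok ℒ α m :=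
      a3.trans (mul_le_mul_of_nonneg_right a4 hW)
    have a6 : N ok1 ℒ1 (τ - 1) ≤ 6 * Wt ok ℒ α τ := by linarith
    calc N ok ℒ j ≤ (25 / 43) ^ (τ - 1 - 6 - j) * N ok1 ℒ1 (τ - 1) := a1
      _ ≤ (25 / 43) ^ (τ - 1 - 6 - j) * (6 * ((25 / 43) ^ (m - τ) * Wt ok ℒ α m)) := by
        refine mul_le_mul_of_nonneg_left ?_ (by positivity)
        linarith
      _ = 6 * (25 / 43) ^ (τ - 1 - 6 - j + (m - τ)) * Wt ok ℒ α m := by rw [pow_add]; ring
      _ ≤ 6 * (25 / 43) ^ (m - 7 - j) * Wt ok ℒ α m := by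
        refine mul_le_mul_of_nonneg_right ?_ hW
        refine mul_le_mul_of_nonneg_left ?_ (by norm_num)
        exact pow_le_pow_of_le_one (by norm_num) (by norm_num) (by omega)
  · have a2 := N_le_Wt (ok := ok) (ℒ := ℒ) (α := α) j
    have a3 := pow_chain hg (m - j) j h1 (by omega)
    have a4 : (20 / 37 : ℚ) ^ (m - j) ≤ (25 / 43) ^ (m - 7 - j) :=
      (pow_le_pow_left₀ (by norm_num) (by norm_num) _).trans
        (pow_le_pow_of_le_one (by norm_num) (by norm_num) (by omega))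
    have a5 : Wt ok ℒ α j ≤ (25 / 43) ^ (m - 7 - j) * Wt ok ℒ α m :=
      a3.trans (mul_le_mul_of_nonneg_right a4 hW)
    have a6 : 0 ≤ (25 / 43 : ℚ) ^ (m - 7 - j) * Wt ok ℒ α m := by positivity
    linarith

/-- growth in phase 2 -/
theorem grow2 (h : P1 ok1 ℒ1 α s F) (hs : 8 ≤ s) (hτ : 7 ≤ τ) (hL : ∀ k, 4 ≤ (L k).card)
    (hgr : ∀ j, 6 ≤ j → j < τ - 1 → 43 / 25 * N ok1 ℒ1 j ≤ N ok1 ℒ1 (j + 1))
    (hpat : 1 / 1000 * N ok1 ℒ1 (τ - 1) ≤ (((W ok1 ℒ1 (τ - 1)).filter (pat (τ - 1))).card : ℚ))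
    (hsm : ((F.card : ℚ) + 30 * s + 2) * (25 / 43) ^ (s - 8) ≤ 1 / 100000000) :
    ∀ m, τ ≤ m → ∀ j ≤ m, N (okC ok1 α s F τ) (liC ℒ1 L α τ) j ≤
      6000 * (25 / 43) ^ (m - 7 - j) * N (okC ok1 α s F τ) (liC ℒ1 L α τ) m := by
  have hloc := okC_local (α := α) (F := F) (τ := τ) h.loc (show 1 ≤ s by omega)
  have hl := loss (L := L) h hs hτ hgr hpat hsm
  have hP : P2 (okC ok1 α s F τ) (liC ℒ1 L α τ) α τ (wb s F) := by
    refine case1_P2 h (by omega) hτ hL ?_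
    intro m hm hg
    have hW := Wt_nonneg (ok := okC ok1 α s F τ) (ℒ := liC ℒ1 L α τ) (α := α) m
    have hb' : s ≤ m + 1 → N (okC ok1 α s F τ) (liC ℒ1 L α τ) (m + 1 - s) ≤
        6 * (25 / 43) ^ (s - 8) * Wt (okC ok1 α s F τ) (liC ℒ1 L α τ) α m := by
      intro hsm'
      have hb := all_back h hτ (fun j hj => N_small hj) hgr hl hm hg (m + 1 - s) (by omega)
      refine hb.trans ?_
      refine mul_le_mul_of_nonneg_right ?_ hW
      refine mul_le_mul_of_nonneg_left ?_ (by norm_num)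
      exact pow_le_pow_of_le_one (by norm_num) (by norm_num) (by omega)
    have hw := wb_cost (F := F) (ok := okC ok1 α s F τ) (ℒ := liC ℒ1 L α τ) hloc
      (show 1 ≤ s by omega) m (C := 6 * (25 / 43) ^ (s - 8) *
        Wt (okC ok1 α s F τ) (liC ℒ1 L α τ) α m) (by positivity) hb'
    have h7 : ((F.card : ℚ) + 30 * s + 2) * (6 * (25 / 43) ^ (s - 8) *
        Wt (okC ok1 α s F τ) (liC ℒ1 L α τ) α m) =
        6 * (((F.card : ℚ) + 30 * s + 2) * (25 / 43) ^ (s - 8)) *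
        Wt (okC ok1 α s F τ) (liC ℒ1 L α τ) α m := by ring
    rw [h7] at hw
    have h8 : 6 * (((F.card : ℚ) + 30 * s + 2) * (25 / 43) ^ (s - 8)) *
        Wt (okC ok1 α s F τ) (liC ℒ1 L α τ) α m ≤ 6 * (1 / 100000000) *
        Wt (okC ok1 α s F τ) (liC ℒ1 L α τ) α m := by
      refine mul_le_mul_of_nonneg_right ?_ hW
      linarith
    linarith
  intro m hm j hj
  have h1 := all_back h hτ (fun j hj => N_small hj) hgr hl hm
    (fun j hj _ => hP.main j hj) j hj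
  refine h1.trans ?_
  have h2 := Wt_le_N (ok := okC ok1 α s F τ) (ℒ := liC ℒ1 L α τ) (α := α) m
  calc 6 * (25 / 43 : ℚ) ^ (m - 7 - j) * Wt (okC ok1 α s F τ) (liC ℒ1 L α τ) α m ≤
      6 * (25 / 43 : ℚ) ^ (m - 7 - j) * (1000 * N (okC ok1 α s F τ) (liC ℒ1 L α τ) m) :=
        mul_le_mul_of_nonneg_left h2 (by positivity)
    _ = _ := by ring

end

end
end Pool.Agent.H378R3.ND
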