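import Pool.Agent.H378R3.ND.LegA
import Pool.Agent.H409R3.Ph1.Prefix

/-! The final families of the leg. -/

set_option autoImplicit false

namespace Pool.Agent.H378R3.ND
open Finset Pool.Agent.H565.Win
open scoped Classical

noncomputable section

/-- the final condition, case 1: up to the place `n1` the leg family, from then on the condition
`V` -/
def okF (V ok1 : ℕ → (ℕ → ℕ) → Prop) (ℒ1 L : ℕ → Finset ℕ) (α s : ℕ) (F : Finset (List ℕ))
    (τ n1 p : ℕ) (c : ℕ → ℕ) : Prop :=
  if p < n1 then c p ∈ liC ℒ1 L α τ p ∧ okC ok1 α s F τ p c else V p c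

/-- the final condition, case 2 (no `α` before `n1`) -/
def okG (V ok1 : ℕ → (ℕ → ℕ) → Prop) (ℒ1 : ℕ → Finset ℕ) (n1 p : ℕ) (c : ℕ → ℕ) : Prop :=
  if p < n1 then c p ∈ ℒ1 p ∧ ok1 p c else V p c

end
end Pool.Agent.H378R3.ND
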