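import Pool.Agent.H378R3.ND.LegB
import Pool.Agent.H378R3.ND.LegF
import Pool.Agent.H565.Win.Rec

/-! The record time of the leg, both cases. -/

set_option autoImplicit false

namespace Pool.Agent.H378R3.ND
open Finset Pool.Agent.H565.Win
open scoped Classical

noncomputable section

section

variable {V ok1 : ℕ → (ℕ → ℕ) → Prop} {ℒ1 L : ℕ → Finset ℕ} {α s : ℕ} {F : Finset (List ℕ)}
  {τ n1 : ℕ}

lemma W_okF (hsub : ∀ k, ℒ1 k ⊆ L k) (hα : α ∈ L (τ - 1)) {m : ℕ} (hm : m ≤ n1) :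
    W (okF V ok1 ℒ1 L α s F τ n1) L m = W (okC ok1 α s F τ) (liC ℒ1 L α τ) m := by
  ext c
  rw [mem_W, mem_W]
  constructor
  · rintro ⟨⟨h1, h2⟩, h3⟩
    refine ⟨⟨fun k hk => ?_, h2⟩, fun p hp => ?_⟩
    · have := h3 k hk
      rw [okF, if_pos (by omega)] at this
      exact this.1
    · have := h3 p hp
      rw [okF, if_pos (by omega)] at this
      exact this.2
  · rintro ⟨⟨h1, h2⟩, h3⟩
    refine ⟨⟨fun k hk => ?_, h2⟩, fun p hp => ?_⟩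
    · have := h1 k hk
      unfold liC at this
      split_ifs at this with a b
      · exact hsub k this
      · rw [mem_singleton] at this
        rw [this]
        have e : τ - 1 = k := by omega
        rw [← e]; exact hα
      · exact this
    · rw [okF, if_pos (by omega)]
      exact ⟨h1 p hp, h3 p hp⟩

lemma W_okG (hsub : ∀ k, ℒ1 k ⊆ L k) {m : ℕ} (hm : m ≤ n1) :
    W (okG V ok1 ℒ1 n1) L m = W ok1 ℒ1 m := by
  ext c
  rw [mem_W, mem_W]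
  constructor
  · rintro ⟨⟨h1, h2⟩, h3⟩
    refine ⟨⟨fun k hk => ?_, h2⟩, fun p hp => ?_⟩
    · have := h3 k hk
      rw [okG, if_pos (by omega)] at this
      exact this.1
    · have := h3 p hp
      rw [okG, if_pos (by omega)] at this
      exact this.2
  · rintro ⟨⟨h1, h2⟩, h3⟩
    refine ⟨⟨fun k hk => hsub k (h1 k hk), h2⟩, fun p hp => ?_⟩
    rw [okG, if_pos (by omega)]
    exact ⟨h1 p hp, h3 p hp⟩

lemma okF_local (h1 : Local ok1) (hV : Local V) (hs : 1 ≤ s) :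
    Local (okF V ok1 ℒ1 L α s F τ n1) := by
  intro p c c' h hc
  unfold okF at hc ⊢
  split_ifs at hc ⊢ with a
  · refine ⟨?_, okC_local h1 hs p c c' h hc.2⟩
    rw [← h p le_rfl]; exact hc.1
  · exact hV p c c' h hc

lemma okG_local (h1 : Local ok1) (hV : Local V) :
    Local (okG V ok1 ℒ1 n1) := by
  intro p c c' h hc
  unfold okG at hc ⊢
  split_ifs at hc ⊢ with a
  · refine ⟨?_, h1 p c c' h hc.2⟩
    rw [← h p le_rfl]; exact hc.1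
  · exact hV p c c' h hc

lemma S_le_N {ok : ℕ → (ℕ → ℕ) → Prop} {ℒ : ℕ → Finset ℕ} (m : ℕ) : S ok ℒ m ≤ N ok ℒ m := by
  rw [N_eq, S]
  exact sum_le_sum fun c _ => wt_le_one m c

/-- the record -/
lemma rec_of {ok : ℕ → (ℕ → ℕ) → Prop} {ℒ : ℕ → Finset ℕ} {A B : ℕ} (hAB : A + 1200 ≤ B + 1)
    (hA : 6 ≤ A) (h6 : 1 ≤ N ok ℒ 6)
    (hb : ∀ j ≤ B, N ok ℒ j ≤ 6000 * (25 / 43) ^ (B - 7 - j) * N ok ℒ B) :
    ∃ n1, A ≤ n1 ∧ n1 ≤ B ∧ 0 < S ok ℒ n1 ∧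
      ∀ j ≤ n1, S ok ℒ j ≤ (10 / 17) ^ (n1 - j) * S ok ℒ n1 := by
  obtain ⟨n1, h1, h2, h3⟩ := record (S ok ℒ) A B (by omega) (by
    intro j hj
    have a1 := hb j (by omega)
    have a2 := S_le_N (ok := ok) (ℒ := ℒ) j
    have a3 := N_le_S (ok := ok) (ℒ := ℒ) B
    have a4 := S_nonneg (ok := ok) (ℒ := ℒ) B
    have a5 := low_pow (k := B - j) (by omega)
    have e : B - 7 - j = B - j - 7 := by omega
    rw [e] at a1
    calc S ok ℒ j ≤ 6000 * (25 / 43) ^ (B - j - 7) * N ok ℒ B := a2.trans a1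
      _ ≤ 6000 * (25 / 43) ^ (B - j - 7) * (11 / 8 * S ok ℒ B) :=
        mul_le_mul_of_nonneg_left a3 (by positivity)
      _ = (8250 * (25 / 43) ^ (B - j - 7)) * S ok ℒ B := by ring
      _ ≤ (10 / 17) ^ (B - j) * S ok ℒ B := mul_le_mul_of_nonneg_right a5 a4)
  refine ⟨n1, h1, h2, ?_, h3⟩
  have a1 := h3 6 (by omega)
  have a2 := N_le_S (ok := ok) (ℒ := ℒ) 6
  by_contra hcon
  push Not at hcon
  have a3 : (10 / 17 : ℚ) ^ (n1 - 6) * S ok ℒ n1 ≤ 0 :=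
    mul_nonpos_of_nonneg_of_nonpos (by positivity) hcon
  linarith

theorem case1 (h : P1 ok1 ℒ1 α s F) (hs : 1300 ≤ s) (hτ : 7 ≤ τ) (hτ2 : τ ≤ 13 * s)
    (hL : ∀ k, (L k).card = 4) (hsub : ∀ k, ℒ1 k ⊆ L k) (hα : α ∈ L (τ - 1)) (hV : Local V)
    (hgr : ∀ j, 6 ≤ j → j < τ - 1 → 43 / 25 * N ok1 ℒ1 j ≤ N ok1 ℒ1 (j + 1))
    (hpat : 1 / 1000 * N ok1 ℒ1 (τ - 1) ≤ (((W ok1 ℒ1 (τ - 1)).filter (pat (τ - 1))).card : ℚ))
    (hsm : ((F.card : ℚ) + 30 * s + 2) * (25 / 43) ^ (s - 8) ≤ 1 / 100000000) :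
    ∃ n1, 13 * s < n1 ∧ n1 ≤ 15 * s ∧ Local (okF V ok1 ℒ1 L α s F τ n1) ∧
      0 < S (okF V ok1 ℒ1 L α s F τ n1) L n1 ∧
      ∀ j ≤ n1, S (okF V ok1 ℒ1 L α s F τ n1) L j ≤
        (10 / 17) ^ (n1 - j) * S (okF V ok1 ℒ1 L α s F τ n1) L n1 := by
  have hg := grow2 (L := L) h (by omega) hτ (fun k => (hL k).ge) hgr hpat hsm
  obtain ⟨n1, a1, a2, a3, a4⟩ := rec_of (A := 13 * s + 1) (B := 15 * s) (by omega) (by omega)
    (by rw [N_small (by omega)]; exact h.six) (hg (15 * s) (by omega))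
  refine ⟨n1, by omega, a2, okF_local h.loc hV (by omega), ?_, ?_⟩
  · unfold S at a3 ⊢
    rwa [W_okF hsub hα le_rfl]
  · intro j hj
    have := a4 j hj
    unfold S at this ⊢
    rwa [W_okF hsub hα le_rfl, W_okF hsub hα hj]

theorem case2 (h : P1 ok1 ℒ1 α s F) (hs : 1300 ≤ s) (hsub : ∀ k, ℒ1 k ⊆ L k) (hV : Local V)
    (hgr : ∀ j, 6 ≤ j → j < 13 * s → 43 / 25 * N ok1 ℒ1 j ≤ N ok1 ℒ1 (j + 1)) :
    ∃ n1, 12 * s + 10 ≤ n1 ∧ n1 ≤ 15 * s ∧ Local (okG V ok1 ℒ1 n1) ∧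
      0 < S (okG V ok1 ℒ1 n1) L n1 ∧
      ∀ j ≤ n1, S (okG V ok1 ℒ1 n1) L j ≤ (10 / 17) ^ (n1 - j) * S (okG V ok1 ℒ1 n1) L n1 := by
  have hg := back1 h (b := 13 * s) (by omega) hgr
  obtain ⟨n1, a1, a2, a3, a4⟩ := rec_of (ok := ok1) (ℒ := ℒ1) (A := 12 * s + 10) (B := 13 * s)
    (by omega) (by omega) h.six (by
      intro j hj
      refine (hg j hj).trans ?_
      have hN := N_nonneg (ok := ok1) (ℒ := ℒ1) (13 * s)
      refine mul_le_mul_of_nonneg_right ?_ hN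
      have e1 : (25 / 43 : ℚ) ^ (13 * s - 6 - j) ≤ (25 / 43) ^ (13 * s - 7 - j) :=
        pow_le_pow_of_le_one (by norm_num) (by norm_num) (by omega)
      have e2 : (0 : ℚ) ≤ (25 / 43) ^ (13 * s - 7 - j) := by positivity
      linarith)
  refine ⟨n1, by omega, by omega, okG_local h.loc hV, ?_, ?_⟩
  · unfold S at a3 ⊢
    rwa [W_okG hsub le_rfl]
  · intro j hj
    have := a4 j hj
    unfold S at this ⊢
    rwa [W_okG hsub le_rfl, W_okG hsub hj]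

end

end
end Pool.Agent.H378R3.ND
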