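import Pool.Agent.H378R3.ND.LegC

/-! The leg: case distinction. -/

set_option autoImplicit false

namespace Pool.Agent.H378R3.ND
open Finset Pool.Agent.H565.Win
open scoped Classical

noncomputable section

/-- the window condition of phase 1 -/
def wn1 (s : ℕ) (F : Finset (List ℕ)) : ℕ → (ℕ → ℕ) → Prop := fun p c => ¬ wb s F p c

/-- the condition of phase 1 -/
abbrev o1 (α : ℕ) (L : ℕ → Finset ℕ) (s : ℕ) (F : Finset (List ℕ)) : ℕ → (ℕ → ℕ) → Prop :=
  Pool.Agent.H409R3.Ph1.ok α L (wn1 s F)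

/-- the lists of phase 1 -/
abbrev l1 (α : ℕ) (L : ℕ → Finset ℕ) (q : ℕ → ℕ) : ℕ → Finset ℕ := Pool.Agent.H409R3.Ph1.ls α L q

lemma wn1_local {s : ℕ} (hs : 1 ≤ s) (F : Finset (List ℕ)) : Local (wn1 s F) :=
  fun _ _ _ h hc => wb_congr hs h hc

section

variable {V : ℕ → (ℕ → ℕ) → Prop} {L : ℕ → Finset ℕ} {α s : ℕ} {F : Finset (List ℕ)}
  {q : ℕ → ℕ}

lemma hyp_of (h : P1 (o1 α L s F) (l1 α L q) α s F) (hs : 1300 ≤ s) (hL : ∀ k, (L k).card = 4)
    (hq : trunc 6 q ∈ W (o1 α L s F) (l1 α L q) 6) (q53 : q 5 ≠ q 3) (q02 : q 0 ≠ q 2)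
    (q12 : q 1 ≠ q 2)
    (hsm : ((F.card : ℚ) + 30 * s + 2) * (25 / 43) ^ (s - 8) ≤ 1 / 100000000) {M : ℕ}
    (hpat : ∀ k, 6 ≤ k → k ≤ M → α ∈ L k →
      (((W (o1 α L s F) (l1 α L q) k).filter (pat k)).card : ℚ) ≤
        1 / 1000 * N (o1 α L s F) (l1 α L q) k) :
    Pool.Agent.H409R3.Ph1.Hyp α L (wn1 s F) q M where
  hL := hL
  hw := wn1_local (by omega) F
  hwin := by
    intro m h6 hM hg
    have hN := N_nonneg (ok := o1 α L s F) (ℒ := l1 α L q) m
    have hw := wb_cost (F := F) (ok := o1 α L s F) (ℒ := l1 α L q) h.loc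
      (show 1 ≤ s by omega) m (C := (25 / 43) ^ (s - 8) * N (o1 α L s F) (l1 α L q) m)
      (by positivity) (by
        intro hsm'
        refine (back1 h h6 hg (m + 1 - s) (by omega)).trans ?_
        refine mul_le_mul_of_nonneg_right ?_ hN
        exact pow_le_pow_of_le_one (by norm_num) (by norm_num) (by omega))
    rw [← mul_assoc] at hw
    have h2 : ((F.card : ℚ) + 30 * s + 2) * (25 / 43) ^ (s - 8) *
        N (o1 α L s F) (l1 α L q) m ≤ 1 / 100000000 * N (o1 α L s F) (l1 α L q) m :=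
      mul_le_mul_of_nonneg_right hsm hN
    have e : Pool.Agent.H409R3.Ph1.ucnt (o1 α L s F) (l1 α L q) m (fun c => ¬ wn1 s F m c) =
        (((U (o1 α L s F) (l1 α L q) m).filter (wb s F m)).card : ℚ) := by
      unfold Pool.Agent.H409R3.Ph1.ucnt wn1
      simp only [not_not]
      rw [sum_boole]
    change Pool.Agent.H409R3.Ph1.ucnt (o1 α L s F) (l1 α L q) m (fun c => ¬ wn1 s F m c) ≤ _
    rw [e]
    linarith
  hq := hq
  q53 := q53
  q02 := q02
  q12 := q12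
  hpat := by
    intro k h6 hM hk
    have := hpat k h6 hM hk
    unfold Pool.Agent.H409R3.Ph1.cnt
    rw [sum_boole]
    exact this

/-- the two possible families of a leg -/
theorem leg_growth (h : P1 (o1 α L s F) (l1 α L q) α s F) (hs : 1300 ≤ s)
    (hL : ∀ k, (L k).card = 4)
    (hq : trunc 6 q ∈ W (o1 α L s F) (l1 α L q) 6) (q53 : q 5 ≠ q 3) (q02 : q 0 ≠ q 2)
    (q12 : q 1 ≠ q 2) (hqL : ∀ i < 6, q i ∈ L i)
    (hsm : ((F.card : ℚ) + 30 * s + 2) * (25 / 43) ^ (s - 8) ≤ 1 / 100000000) (hV : Local V) :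
    (∃ τ n1, 7 ≤ τ ∧ τ ≤ 13 * s ∧ 13 * s < n1 ∧ n1 ≤ 15 * s ∧
      Local (okF V (o1 α L s F) (l1 α L q) L α s F τ n1) ∧
      0 < S (okF V (o1 α L s F) (l1 α L q) L α s F τ n1) L n1 ∧
      ∀ j ≤ n1, S (okF V (o1 α L s F) (l1 α L q) L α s F τ n1) L j ≤
        (10 / 17) ^ (n1 - j) * S (okF V (o1 α L s F) (l1 α L q) L α s F τ n1) L n1) ∨
    (∃ n1, 12 * s + 10 ≤ n1 ∧ n1 ≤ 15 * s ∧ Local (okG V (o1 α L s F) (l1 α L q) n1) ∧
      0 < S (okG V (o1 α L s F) (l1 α L q) n1) L n1 ∧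
      ∀ j ≤ n1, S (okG V (o1 α L s F) (l1 α L q) n1) L j ≤
        (10 / 17) ^ (n1 - j) * S (okG V (o1 α L s F) (l1 α L q) n1) L n1) := by
  have hsub : ∀ k, l1 α L q k ⊆ L k := by
    intro k x hx
    unfold l1 Pool.Agent.H409R3.Ph1.ls at hx
    split_ifs at hx with hk
    · rw [mem_singleton] at hx
      rw [hx]; exact hqL k hk
    · exact mem_of_mem_erase hx
  by_cases hc : ∃ k, 6 ≤ k ∧ k < 13 * s ∧ α ∈ L k ∧
      1 / 1000 * N (o1 α L s F) (l1 α L q) k <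
        (((W (o1 α L s F) (l1 α L q) k).filter (pat k)).card : ℚ)
  · left
    obtain ⟨k1, k2, k3, k4⟩ := Nat.find_spec hc
    set k := Nat.find hc with hk
    have hmin : ∀ i, i < k → ¬ (6 ≤ i ∧ i < 13 * s ∧ α ∈ L i ∧
      1 / 1000 * N (o1 α L s F) (l1 α L q) i <
        (((W (o1 α L s F) (l1 α L q) i).filter (pat i)).card : ℚ)) :=
      fun i hi => Nat.find_min hc hi
    have H := hyp_of h hs hL hq q53 q02 q12 hsm (M := k - 1) (by
      intro i h6 hi hα
      have := hmin i (by omega)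
      push Not at this
      exact this h6 (by omega) hα)
    have hgr : ∀ j, 6 ≤ j → j < k + 1 - 1 → 43 / 25 * N (o1 α L s F) (l1 α L q) j ≤
        N (o1 α L s F) (l1 α L q) (j + 1) := fun j h6 hj => H.growth j h6 (by omega)
    obtain ⟨n1, b1, b2, b3, b4, b5⟩ := case1 (τ := k + 1) (V := V) h hs (by omega) (by omega) hL
      hsub (by rw [Nat.add_sub_cancel]; exact k3) hV hgr
      (by rw [Nat.add_sub_cancel]; exact k4.le) hsm
    exact ⟨k + 1, n1, by omega, by omega, b1, b2, b3, b4, b5⟩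
  · right
    push Not at hc
    have H := hyp_of h hs hL hq q53 q02 q12 hsm (M := 13 * s - 1) (by
      intro i h6 hi hα
      exact hc i h6 (by omega) hα)
    exact case2 h hs hsub hV (fun j h6 hj => H.growth j h6 (by omega))

end

end
end Pool.Agent.H378R3.ND
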