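import Pool.Agent.H378R3.ND.LegD

/-! The phase 1 data. -/

set_option autoImplicit false

namespace Pool.Agent.H378R3.ND
open Finset Pool.Agent.H565.Win
open scoped Classical

noncomputable section

theorem p1_of {L : ℕ → Finset ℕ} {α s : ℕ} {F : Finset (List ℕ)} {q : ℕ → ℕ} (hs : 1 ≤ s)
    (hq : trunc 6 q ∈ W (o1 α L s F) (l1 α L q) 6) (hqα : ∀ i < 6, q i ≠ α)
    (q0 : q 0 ≠ q 2 ∧ q 0 ≠ q 3 ∧ ¬ (q 0 = q 4 ∧ q 1 ≠ q 3)) :
    P1 (o1 α L s F) (l1 α L q) α s F where
  loc := Pool.Agent.H409R3.Ph1.local_ok (wn1_local hs F)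
  good := fun p c hc => ⟨fun t ht hS => hc.1 t ⟨ht, hS.1, hS.2⟩, hc.2.1⟩
  nα := by
    intro k hk
    unfold l1 Pool.Agent.H409R3.Ph1.ls at hk
    split_ifs at hk with h6
    · rw [mem_singleton] at hk
      exact hqα k h6 hk.symm
    · exact notMem_erase _ _ hk
  one := fun k hk => Pool.Agent.H409R3.Ph1.N_le_one hk
  six := by
    have : 1 ≤ (W (o1 α L s F) (l1 α L q) 6).card := card_pos.2 ⟨_, hq⟩
    unfold N; exact_mod_cast this
  l0 := by
    intro m hm c hc
    rw [mem_W] at hc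
    have key : ∀ i, i < 6 → c i = q i := by
      intro i hi
      have := hc.1.1 i (by omega)
      unfold l1 Pool.Agent.H409R3.Ph1.ls at this
      rw [if_pos hi, mem_singleton] at this
      exact this
    rw [key 0 (by norm_num), key 1 (by norm_num), key 2 (by norm_num), key 3 (by norm_num),
      key 4 (by norm_num)]
    exact q0

end
end Pool.Agent.H378R3.ND
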