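import Mathlib

/-! The potential of the last five letters used in phase 2 (MP_e45a60_co). -/

set_option autoImplicit false

namespace Pool.Agent.H378R3.ND
open Finset

section
variable {T : Type*} [DecidableEq T]

/-- the potential (times 1000) of a word whose last five letters are `a0, ..., a4` -/
def V (α a0 a1 a2 a3 a4 : T) : ℕ :=
  if a4 = α then (if a2 = α then 498 else if a1 = α then (if a0 = a3 then 425 else 582) else 643)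
  else if a3 = α then (if a4 = a2 then 390 else if a1 = a4 then (if a0 = α then 372 else 487) else 571)
  else if a2 = α then (if a1 = a4 then (if a0 = a3 then 219 else 408) else 439)
  else if a1 = α then 494
  else if a4 = a2 then 730
  else if a1 = a4 then (if a0 = a3 then 610 else 881)
  else if a0 = α then 556 else 1000

/-- the potential of `a1, ..., a4, x` for a new letter `x` -/
def Fr (α a1 a2 a3 a4 : T) : ℕ :=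
  if a4 = α then 571 else if a3 = α then 439 else if a2 = α then 494 else if a1 = α then 556 else 1000

/-- the letter `x` may follow `a0, ..., a4`: no square of half-length at most 3 and no forbidden
repetition of the first letter after an `α` -/
def Alw (α a0 a1 a2 a3 a4 x : T) : Prop :=
  x ≠ a4 ∧ ¬ (a2 = a4 ∧ x = a3) ∧ ¬ (a0 = a3 ∧ a1 = a4 ∧ x = a2) ∧
  ¬ (a2 = α ∧ a3 ≠ α ∧ a4 ≠ α ∧ x = a3) ∧
  ¬ (a1 = α ∧ a2 ≠ α ∧ a3 ≠ α ∧ a4 ≠ α ∧ x = a2) ∧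
  ¬ (a0 = α ∧ a1 ≠ α ∧ a2 ≠ α ∧ a3 ≠ α ∧ a4 ≠ α ∧ x = a1 ∧ a2 ≠ a4)

instance (α a0 a1 a2 a3 a4 x : T) : Decidable (Alw α a0 a1 a2 a3 a4 x) := by
  unfold Alw; infer_instance

/-- the five letters can be the last five letters of an admissible word -/
def Vld (α a0 a1 a2 a3 a4 : T) : Prop :=
  a0 ≠ a1 ∧ a1 ≠ a2 ∧ a2 ≠ a3 ∧ a3 ≠ a4 ∧ ¬ (a0 = a2 ∧ a1 = a3) ∧ ¬ (a1 = a3 ∧ a2 = a4) ∧
  ¬ (a0 = α ∧ a1 ≠ α ∧ a2 ≠ α ∧ a1 = a3) ∧ ¬ (a1 = α ∧ a2 ≠ α ∧ a3 ≠ α ∧ a2 = a4) ∧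
  ¬ (a0 = α ∧ a1 ≠ α ∧ a2 ≠ α ∧ a3 ≠ α ∧ a1 = a4)

instance (α a0 a1 a2 a3 a4 : T) : Decidable (Vld α a0 a1 a2 a3 a4) := by
  unfold Vld; infer_instance

/-- value of the letter `x` after `a0, ..., a4` -/
def g (α a0 a1 a2 a3 a4 x : T) : ℕ := if Alw α a0 a1 a2 a3 a4 x then V α a1 a2 a3 a4 x else 0

end

theorem chk : ∀ a4 a3 a2 a1 a0 : Fin 6, Vld 0 a0 a1 a2 a3 a4 →
    9 * V 0 a0 a1 a2 a3 a4 + 4 * ∑ y : Fin 6, (Fr 0 a1 a2 a3 a4 - g 0 a0 a1 a2 a3 a4 y) ≤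
      16 * Fr 0 a1 a2 a3 a4 := by
  decide +kernel

/-- transfer to natural numbers: equality patterns -/
theorem exists_code (S : Finset ℕ) (hS : S.card ≤ 6) (α : ℕ) (hα : α ∈ S) :
    ∃ φ : ℕ → Fin 6, φ α = 0 ∧ ∀ x ∈ S, ∀ y ∈ S, (φ x = φ y ↔ x = y) := by
  classical
  obtain ⟨e⟩ : Nonempty (S ↪ Fin 6) := by
    apply Function.Embedding.nonempty_of_card_le
    simpa using hS
  let φ0 : ℕ → Fin 6 := fun n => if h : n ∈ S then e ⟨n, h⟩ else 0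
  refine ⟨fun n => Equiv.swap (φ0 α) 0 (φ0 n), by simp, ?_⟩
  intro x hx y hy
  constructor
  · intro h
    have h1 := (Equiv.swap (φ0 α) 0).injective h
    simp only [φ0, hx, hy, dif_pos] at h1
    have := e.injective h1
    simpa using this
  · rintro rfl; rfl

theorem g_fresh {α a0 a1 a2 a3 a4 x : ℕ} (h : x ≠ α) (h0 : x ≠ a0) (h1 : x ≠ a1) (h2 : x ≠ a2)
    (h3 : x ≠ a3) (h4 : x ≠ a4) : g α a0 a1 a2 a3 a4 x = Fr α a1 a2 a3 a4 := by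
  have hA : Alw α a0 a1 a2 a3 a4 x := by
    unfold Alw
    refine ⟨h4, fun h' => h3 h'.2, fun h' => h2 h'.2.2, fun h' => h3 h'.2.2.2,
      fun h' => h2 h'.2.2.2.2, fun h' => h1 h'.2.2.2.2.2.1⟩
  unfold g
  rw [if_pos hA]
  unfold V Fr
  rw [if_neg h, if_neg h3, if_neg h2.symm, if_neg h2.symm, if_neg h3, if_neg h2.symm]

theorem g_map {α a0 a1 a2 a3 a4 x : ℕ} (φ : ℕ → Fin 6) (S : Finset ℕ) (hα : α ∈ S) (h0 : a0 ∈ S)
    (h1 : a1 ∈ S) (h2 : a2 ∈ S) (h3 : a3 ∈ S) (h4 : a4 ∈ S) (hx : x ∈ S)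
    (h : ∀ x ∈ S, ∀ y ∈ S, (φ x = φ y ↔ x = y)) :
    g (φ α) (φ a0) (φ a1) (φ a2) (φ a3) (φ a4) (φ x) = g α a0 a1 a2 a3 a4 x := by
  unfold g Alw V
  simp only [ne_eq, h _ hx _ h4, h _ h2 _ h4, h _ hx _ h3, h _ h0 _ h3, h _ h1 _ h4, h _ hx _ h2,
    h _ h2 _ hα, h _ h3 _ hα, h _ h4 _ hα, h _ h1 _ hα, h _ h0 _ hα, h _ hx _ h1, h _ hx _ hα,
    h _ h2 _ hx, h _ h1 _ hα]

theorem V_map {α a0 a1 a2 a3 a4 : ℕ} (φ : ℕ → Fin 6) (S : Finset ℕ) (hα : α ∈ S) (h0 : a0 ∈ S)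
    (h1 : a1 ∈ S) (h2 : a2 ∈ S) (h3 : a3 ∈ S) (h4 : a4 ∈ S)
    (h : ∀ x ∈ S, ∀ y ∈ S, (φ x = φ y ↔ x = y)) :
    V (φ α) (φ a0) (φ a1) (φ a2) (φ a3) (φ a4) = V α a0 a1 a2 a3 a4 := by
  unfold V
  simp only [h _ h4 _ hα, h _ h2 _ hα, h _ h1 _ hα, h _ h0 _ h3, h _ h3 _ hα, h _ h4 _ h2,
    h _ h1 _ h4, h _ h0 _ hα]

theorem Fr_map {α a1 a2 a3 a4 : ℕ} (φ : ℕ → Fin 6) (S : Finset ℕ) (hα : α ∈ S)
    (h1 : a1 ∈ S) (h2 : a2 ∈ S) (h3 : a3 ∈ S) (h4 : a4 ∈ S)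
    (h : ∀ x ∈ S, ∀ y ∈ S, (φ x = φ y ↔ x = y)) :
    Fr (φ α) (φ a1) (φ a2) (φ a3) (φ a4) = Fr α a1 a2 a3 a4 := by
  unfold Fr
  simp only [h _ h4 _ hα, h _ h2 _ hα, h _ h1 _ hα, h _ h3 _ hα]

theorem Vld_map {α a0 a1 a2 a3 a4 : ℕ} (φ : ℕ → Fin 6) (S : Finset ℕ) (hα : α ∈ S) (h0 : a0 ∈ S)
    (h1 : a1 ∈ S) (h2 : a2 ∈ S) (h3 : a3 ∈ S) (h4 : a4 ∈ S)
    (h : ∀ x ∈ S, ∀ y ∈ S, (φ x = φ y ↔ x = y)) (hv : Vld α a0 a1 a2 a3 a4) :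
    Vld (φ α) (φ a0) (φ a1) (φ a2) (φ a3) (φ a4) := by
  unfold Vld at hv ⊢
  simpa only [ne_eq, h _ h0 _ h1, h _ h1 _ h2, h _ h2 _ h3, h _ h3 _ h4, h _ h0 _ h2, h _ h1 _ h3,
    h _ h2 _ h4, h _ h0 _ hα, h _ h1 _ hα, h _ h2 _ hα, h _ h3 _ hα, h _ h1 _ h4] using hv

/-- the potential inequality for four letter lists -/
theorem pot {α a0 a1 a2 a3 a4 : ℕ} (hv : Vld α a0 a1 a2 a3 a4) (A : Finset ℕ) (hA : 4 ≤ A.card) :
    9 * V α a0 a1 a2 a3 a4 ≤ 4 * ∑ x ∈ A, g α a0 a1 a2 a3 a4 x := by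
  classical
  set S : Finset ℕ := {α, a0, a1, a2, a3, a4} with hSdef
  have hScard : S.card ≤ 6 := by
    rw [hSdef]
    exact (Finset.card_le_six)
  have hα : α ∈ S := by simp [hSdef]
  have h0 : a0 ∈ S := by simp [hSdef]
  have h1 : a1 ∈ S := by simp [hSdef]
  have h2 : a2 ∈ S := by simp [hSdef]
  have h3 : a3 ∈ S := by simp [hSdef]
  have h4 : a4 ∈ S := by simp [hSdef]
  obtain ⟨φ, hφ0, hφ⟩ := exists_code S hScard α hα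
  have hc := chk (φ a4) (φ a3) (φ a2) (φ a1) (φ a0)
    (by have := Vld_map φ S hα h0 h1 h2 h3 h4 hφ hv; rwa [hφ0] at this)
  rw [← hφ0, V_map φ S hα h0 h1 h2 h3 h4 hφ, Fr_map φ S hα h1 h2 h3 h4 hφ] at hc
  set F := Fr α a1 a2 a3 a4 with hF
  have hsum : ∑ y ∈ S, (F - g α a0 a1 a2 a3 a4 y) ≤
      ∑ y : Fin 6, (F - g (φ α) (φ a0) (φ a1) (φ a2) (φ a3) (φ a4) y) := by
    calc ∑ y ∈ S, (F - g α a0 a1 a2 a3 a4 y)
        = ∑ y ∈ S, (F - g (φ α) (φ a0) (φ a1) (φ a2) (φ a3) (φ a4) (φ y)) :=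
          Finset.sum_congr rfl fun y hy => by rw [g_map φ S hα h0 h1 h2 h3 h4 hy hφ]
      _ = ∑ z ∈ S.image φ, (F - g (φ α) (φ a0) (φ a1) (φ a2) (φ a3) (φ a4) z) := by
          rw [Finset.sum_image]
          intro x hx y hy hxy
          exact (hφ x hx y hy).1 hxy
      _ ≤ _ := Finset.sum_le_sum_of_subset (Finset.subset_univ _)
  have hA4 : 4 * F ≤ ∑ x ∈ A, g α a0 a1 a2 a3 a4 x + ∑ y ∈ S, (F - g α a0 a1 a2 a3 a4 y) := by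
    have e1 : ∑ x ∈ A, F ≤ ∑ x ∈ A, (g α a0 a1 a2 a3 a4 x +
        if x ∈ S then (F - g α a0 a1 a2 a3 a4 x) else 0) := by
      apply Finset.sum_le_sum
      intro x _
      by_cases hx : x ∈ S
      · rw [if_pos hx]; omega
      · rw [if_neg hx]
        simp only [hSdef, Finset.mem_insert, Finset.mem_singleton, not_or] at hx
        rw [g_fresh hx.1 hx.2.1 hx.2.2.1 hx.2.2.2.1 hx.2.2.2.2.1 hx.2.2.2.2.2]
        omega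
    rw [Finset.sum_const, smul_eq_mul, Finset.sum_add_distrib, ← Finset.sum_filter] at e1
    have e2 : ∑ x ∈ A with x ∈ S, (F - g α a0 a1 a2 a3 a4 x) ≤ ∑ y ∈ S, (F - g α a0 a1 a2 a3 a4 y) := by
      apply Finset.sum_le_sum_of_subset
      intro x hx
      exact (Finset.mem_filter.1 hx).2
    have e3 : 4 * F ≤ A.card * F := Nat.mul_le_mul_right F hA
    omega
  omega

end Pool.Agent.H378R3.ND
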