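import Pool.Agent.H378R3.ND.Frame
import Pool.Agent.H378R3.ND.Pot

/-! Phase 2: growth after the first `α`. -/

set_option autoImplicit false

namespace Pool.Agent.H378R3.ND
open Finset
open scoped Classical

noncomputable section

theorem V_le (α a0 a1 a2 a3 a4 : ℕ) : V α a0 a1 a2 a3 a4 ≤ 1000 := by
  unfold V; split_ifs <;> omega

theorem V_ge (α a0 a1 a2 a3 a4 : ℕ) : 219 ≤ V α a0 a1 a2 a3 a4 := by
  unfold V; split_ifs <;> omega

theorem V_last (α a0 a1 a2 a3 : ℕ) : V α a0 a1 a2 a3 α ≤ 643 := by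
  unfold V; split_ifs <;> simp_all

theorem sq4 {α y v1 v2 v3 v4 : ℕ} (hA : Alw α y v1 v2 v3 v4 v1) :
    V α v4 v1 v2 v3 v4 ≤ V α y v1 v2 v3 v4 := by
  unfold Alw at hA
  obtain ⟨h1, h2, h3, h4, h5, h6⟩ := hA
  unfold V
  split_ifs <;> simp_all

/-- weight of a word of length `m` -/
def vt (α m : ℕ) (c : ℕ → ℕ) : ℚ := (V α (c (m-5)) (c (m-4)) (c (m-3)) (c (m-2)) (c (m-1)) : ℚ)

/-- the letter at place `m` is allowed after the five letters before it -/
def AlwC (α m : ℕ) (c : ℕ → ℕ) : Prop :=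
  Alw α (c (m-5)) (c (m-4)) (c (m-3)) (c (m-2)) (c (m-1)) (c m)

/-- a square of half-length `t` ends at place `m` -/
def Sq (t m : ℕ) (c : ℕ → ℕ) : Prop := 2 * t ≤ m + 1 ∧ ∀ i < t, c (m + 1 - 2 * t + i) = c (m + 1 - t + i)

variable {ok : ℕ → (ℕ → ℕ) → Prop} {ℒ : ℕ → Finset ℕ} {α : ℕ}

/-- total weight -/
def Wt (ok : ℕ → (ℕ → ℕ) → Prop) (ℒ : ℕ → Finset ℕ) (α m : ℕ) : ℚ := ∑ c ∈ W ok ℒ m, vt α m c

lemma vt_nonneg (m : ℕ) (c : ℕ → ℕ) : 0 ≤ vt α m c := by unfold vt; positivity

lemma vt_le (m : ℕ) (c : ℕ → ℕ) : vt α m c ≤ 1000 := by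
  unfold vt; exact_mod_cast V_le _ _ _ _ _ _

lemma vt_ge (m : ℕ) (c : ℕ → ℕ) : 219 ≤ vt α m c := by
  unfold vt; exact_mod_cast V_ge _ _ _ _ _ _

lemma Wt_nonneg (m : ℕ) : 0 ≤ Wt ok ℒ α m := sum_nonneg fun _ _ => vt_nonneg _ _

lemma N_le_Wt (m : ℕ) : 219 * N ok ℒ m ≤ Wt ok ℒ α m := by
  rw [N_eq, mul_sum, Wt]
  exact sum_le_sum fun c _ => by rw [mul_one]; exact vt_ge m c

lemma Wt_le_N (m : ℕ) : Wt ok ℒ α m ≤ 1000 * N ok ℒ m := by
  rw [N_eq, mul_sum, Wt]
  exact sum_le_sum fun c _ => by rw [mul_one]; exact vt_le m c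

/-- the short range growth -/
theorem short_grow (hloc : Local ok) {m : ℕ} (hm : 5 ≤ m)
    (hv : ∀ c ∈ W ok ℒ m, Vld α (c (m-5)) (c (m-4)) (c (m-3)) (c (m-2)) (c (m-1)))
    (hL : 4 ≤ (ℒ m).card) :
    9 / 4 * Wt ok ℒ α m ≤ ∑ c ∈ U ok ℒ m, (if AlwC α m c then vt α (m + 1) c else 0) := by
  rw [sum_U hloc, Wt, mul_sum]
  refine sum_le_sum fun w hw => ?_
  have h := pot (hv w hw) (ℒ m) hL
  have h' : (9 : ℚ) * (V α (w (m-5)) (w (m-4)) (w (m-3)) (w (m-2)) (w (m-1)) : ℚ) ≤
      4 * ∑ x ∈ ℒ m, (g α (w (m-5)) (w (m-4)) (w (m-3)) (w (m-2)) (w (m-1)) x : ℚ) := by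
    exact_mod_cast h
  have e : ∑ x ∈ ℒ m, (if AlwC α m (Function.update w m x) then
      vt α (m + 1) (Function.update w m x) else 0) =
      ∑ x ∈ ℒ m, (g α (w (m-5)) (w (m-4)) (w (m-3)) (w (m-2)) (w (m-1)) x : ℚ) := by
    refine sum_congr rfl fun x _ => ?_
    have u1 : Function.update w m x (m - 1) = w (m - 1) := Function.update_of_ne (by omega) _ _
    have u2 : Function.update w m x (m - 2) = w (m - 2) := Function.update_of_ne (by omega) _ _
    have u3 : Function.update w m x (m - 3) = w (m - 3) := Function.update_of_ne (by omega) _ _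
    have u4 : Function.update w m x (m - 4) = w (m - 4) := Function.update_of_ne (by omega) _ _
    have u5 : Function.update w m x (m - 5) = w (m - 5) := Function.update_of_ne (by omega) _ _
    have u0 : Function.update w m x m = x := Function.update_self _ _ _
    have i1 : m + 1 - 5 = m - 4 := by omega
    have i2 : m + 1 - 4 = m - 3 := by omega
    have i3 : m + 1 - 3 = m - 2 := by omega
    have i4 : m + 1 - 2 = m - 1 := by omega
    have i5 : m + 1 - 1 = m := by omega
    unfold AlwC vt g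
    rw [i1, i2, i3, i4, i5, u0, u1, u2, u3, u4, u5]
    split_ifs <;> simp
  rw [e]
  unfold vt
  linarith

/-- squares of half-length at least 4 -/
theorem sq_bound (hloc : Local ok) {m t τ : ℕ} (hτ : 5 ≤ τ) (ht : 4 ≤ t) (htm : τ + t ≤ m + 1)
    (hA : ∀ p c, τ ≤ p → ok p c → AlwC α p c) :
    ∑ c ∈ U ok ℒ m, (if Sq t m c ∧ AlwC α m c then vt α (m + 1) c else 0) ≤ Wt ok ℒ α (m + 1 - t) := by
  rw [← sum_filter, Wt]
  refine inj_bound (m := m + 1) (j := m + 1 - t) (fun v k => v (k - t)) ?_ ?_ ?_ _ _ ?_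
    (fun v _ => vt_nonneg _ _)
  · intro c hc k hk
    rw [mem_filter, mem_U] at hc
    exact hc.1.1.2 k hk
  · intro c hc
    rw [mem_filter] at hc
    exact trunc_U hloc hc.1 (by omega)
  · intro c hc k hk1 hk2
    rw [mem_filter] at hc
    have h := hc.2.1.2 (k - (m + 1 - t)) (by omega)
    have hm := hc.2.1.1
    have e1 : m + 1 - 2 * t + (k - (m + 1 - t)) = k - t := by omega
    have e2 : m + 1 - t + (k - (m + 1 - t)) = k := by omega
    rw [e1, e2] at h
    simp only [trunc, if_pos (show k - t < m + 1 - t by omega)]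
    exact h.symm
  · intro c hc
    rw [mem_filter] at hc
    have hm := hc.2.1.1
    have hS := hc.2.1.2
    have key : ∀ i, i < t → c (m - i) = c (m - t - i) := by
      intro i hi
      have h := hS (t - 1 - i) (by omega)
      have e1 : m + 1 - 2 * t + (t - 1 - i) = m - t - i := by omega
      have e2 : m + 1 - t + (t - 1 - i) = m - i := by omega
      rw [e1, e2] at h
      exact h.symm
    have tr : ∀ i, i < 5 → trunc (m + 1 - t) c (m + 1 - t - (i + 1)) = c (m - t - i) := by
      intro i hi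
      simp only [trunc, if_pos (show m + 1 - t - (i + 1) < m + 1 - t by omega)]
      congr 1
      omega
    have t0 := tr 0 (by norm_num)
    have t1 := tr 1 (by norm_num)
    have t2 := tr 2 (by norm_num)
    have t3 := tr 3 (by norm_num)
    have t4 := tr 4 (by norm_num)
    norm_num at t0 t1 t2 t3 t4
    unfold vt
    rw [t0, t1, t2, t3, t4]
    have i0 : m + 1 - 1 = m - 0 := by omega
    have i1 : m + 1 - 2 = m - 1 := by omega
    have i2 : m + 1 - 3 = m - 2 := by omega
    have i3 : m + 1 - 4 = m - 3 := by omega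
    have i4 : m + 1 - 5 = m - 4 := by omega
    rw [i0, i1, i2, i3, i4, key 0 (by omega), key 1 (by omega), key 2 (by omega), key 3 (by omega)]
    by_cases h5 : 5 ≤ t
    · rw [key 4 (by omega)]
      simp
    · have ht4 : t = 4 := by omega
      subst ht4
      -- the fifth last letter is the last letter of the first half
      have hok : ok (m - 3) c := by
        have := hc.1
        rw [mem_U] at this
        exact this.2 (m - 3) (by omega)
      have hal := hA (m - 3) c (by omega) hok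
      unfold AlwC at hal
      have k3 := key 3 (by norm_num)
      have j1 : m - 3 - 5 = m - 4 - 4 := by omega
      have j2 : m - 3 - 4 = m - 4 - 3 := by omega
      have j3 : m - 3 - 3 = m - 4 - 2 := by omega
      have j4 : m - 3 - 2 = m - 4 - 1 := by omega
      have j5 : m - 3 - 1 = m - 4 := by omega
      rw [j1, j2, j3, j4, j5, k3] at hal
      have := sq4 hal
      norm_num
      exact_mod_cast this

/-- a word beginning with a copy of its own beginning right after the first `α` -/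
def KEv (τ m : ℕ) (c : ℕ → ℕ) : Prop := m + 1 = τ + (τ - 5) ∧ ∀ r < τ - 5, c (τ + r) = c r

/-- a later `α` followed by the word up to the first `α` -/
def LEv (α τ m : ℕ) (c : ℕ → ℕ) : Prop :=
  2 * τ ≤ m ∧ c (m - τ) = α ∧ ∀ r < τ, c (m - τ + 1 + r) = c r

theorem kev_bound (hloc : Local ok) {m τ : ℕ} (hm : m + 1 = τ + (τ - 5)) (hτ : 7 ≤ τ) (K : ℚ)
    (hK0 : 0 ≤ K) (hK : ∀ c ∈ U ok ℒ m, KEv τ m c → vt α (m + 1) c ≤ K) :
    ∑ c ∈ U ok ℒ m, (if KEv τ m c then vt α (m + 1) c else 0) ≤ K * N ok ℒ τ := by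
  rw [← sum_filter, N_eq, mul_sum]
  refine inj_bound (m := m + 1) (j := τ) (fun v k => v (k - τ)) ?_ ?_ ?_ _ _ ?_ ?_
  · intro c hc k hk
    rw [mem_filter, mem_U] at hc
    exact hc.1.1.2 k hk
  · intro c hc
    rw [mem_filter] at hc
    exact trunc_U hloc hc.1 (by omega)
  · intro c hc k hk1 hk2
    rw [mem_filter] at hc
    have h := hc.2.2 (k - τ) (by omega)
    have e1 : τ + (k - τ) = k := by omega
    rw [e1] at h
    simp only [trunc, if_pos (show k - τ < τ by omega)]
    exact h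
  · intro c hc
    rw [mem_filter] at hc
    rw [mul_one]
    exact hK c hc.1 hc.2
  · intro v _; rw [mul_one]; exact hK0

theorem lev_bound (hloc : Local ok) {m τ : ℕ} (hm : 2 * τ ≤ m) (hτ : 7 ≤ τ)
    (hα : ∀ c ∈ W ok ℒ m, c (τ - 1) = α) :
    ∑ c ∈ U ok ℒ m, (if LEv α τ m c then vt α (m + 1) c else 0) ≤ 643 * N ok ℒ (m - τ) := by
  rw [← sum_filter, N_eq, mul_sum]
  refine inj_bound (m := m + 1) (j := m - τ) (fun v k => if k = m - τ then α else v (k - (m - τ + 1)))
    ?_ ?_ ?_ _ _ ?_ ?_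
  · intro c hc k hk
    rw [mem_filter, mem_U] at hc
    exact hc.1.1.2 k hk
  · intro c hc
    rw [mem_filter] at hc
    exact trunc_U hloc hc.1 (by omega)
  · intro c hc k hk1 hk2
    rw [mem_filter] at hc
    by_cases hk : k = m - τ
    · simp only [if_pos hk]
      rw [hk]; exact hc.2.2.1
    · simp only [if_neg hk]
      have h := hc.2.2.2 (k - (m - τ + 1)) (by omega)
      have e1 : m - τ + 1 + (k - (m - τ + 1)) = k := by omega
      rw [e1] at h
      simp only [trunc, if_pos (show k - (m - τ + 1) < m - τ by omega)]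
      exact h
  · intro c hc
    rw [mem_filter] at hc
    rw [mul_one]
    have h := hc.2.2.2 (τ - 1) (by omega)
    have e1 : m - τ + 1 + (τ - 1) = m := by omega
    rw [e1] at h
    have hW := hα _ (trunc_U hloc hc.1 le_rfl)
    simp only [trunc, if_pos (show τ - 1 < m by omega)] at hW
    have hcm : c m = α := by rw [h, hW]
    unfold vt
    have e2 : m + 1 - 1 = m := by omega
    rw [e2, hcm]
    exact_mod_cast V_last _ _ _ _ _
  · intro v _; norm_num

/-- pointwise splitting -/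
theorem split_bound {m τ : ℕ} (bad : (ℕ → ℕ) → Prop) {c : ℕ → ℕ}
    (hok : AlwC α m c → ok m c ∨ (∃ t, 4 ≤ t ∧ τ + t ≤ m + 1 ∧ Sq t m c) ∨ KEv τ m c ∨
      LEv α τ m c ∨ bad c) :
    (if AlwC α m c then vt α (m + 1) c else 0) ≤ (if ok m c then vt α (m + 1) c else 0) +
      ∑ t ∈ Icc 4 (m + 1 - τ), (if Sq t m c ∧ AlwC α m c then vt α (m + 1) c else 0) +
      (if KEv τ m c then vt α (m + 1) c else 0) + (if LEv α τ m c then vt α (m + 1) c else 0) +
      (if bad c then 1000 else 0) := by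
  have hn := vt_nonneg (α := α) (m + 1) c
  have hl := vt_le (α := α) (m + 1) c
  have h1 : 0 ≤ (if ok m c then vt α (m + 1) c else 0) := by split_ifs <;> simp [hn]
  have h2 : 0 ≤ ∑ t ∈ Icc 4 (m + 1 - τ), (if Sq t m c ∧ AlwC α m c then vt α (m + 1) c else 0) :=
    sum_nonneg fun _ _ => by split_ifs <;> simp [hn]
  have h3 : 0 ≤ (if KEv τ m c then vt α (m + 1) c else 0) := by split_ifs <;> simp [hn]
  have h4 : 0 ≤ (if LEv α τ m c then vt α (m + 1) c else 0) := by split_ifs <;> simp [hn]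
  have h5 : (0 : ℚ) ≤ (if bad c then 1000 else 0) := by split_ifs <;> norm_num
  by_cases hA : AlwC α m c
  · rw [if_pos hA]
    rcases hok hA with h | ⟨t, ht, htm, hS⟩ | h | h | h
    · have e : (if ok m c then vt α (m + 1) c else 0) = vt α (m + 1) c := if_pos h
      linarith
    · have e : vt α (m + 1) c ≤
          ∑ t ∈ Icc 4 (m + 1 - τ), (if Sq t m c ∧ AlwC α m c then vt α (m + 1) c else 0) := by
        have hmem : t ∈ Icc 4 (m + 1 - τ) := by rw [mem_Icc]; omega
        have := single_le_sum (f := fun t => if Sq t m c ∧ AlwC α m c then vt α (m + 1) c else 0)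
          (fun i _ => by split_ifs <;> simp [hn]) hmem
        simp only [if_pos (show Sq t m c ∧ AlwC α m c from ⟨hS, hA⟩)] at this
        exact this
      linarith
    · have e : (if KEv τ m c then vt α (m + 1) c else 0) = vt α (m + 1) c := if_pos h
      linarith
    · have e : (if LEv α τ m c then vt α (m + 1) c else 0) = vt α (m + 1) c := if_pos h
      linarith
    · have e : (if bad c then (1000 : ℚ) else 0) = 1000 := if_pos h
      linarith
  · rw [if_neg hA]; linarith

end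
end Pool.Agent.H378R3.ND
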