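import Pool.Agent.H378R3.ND.Ph2

/-! Phase 2: growth by the factor 37/20 after the first `α`. -/

set_option autoImplicit false

namespace Pool.Agent.H378R3.ND
open Finset
open scoped Classical

noncomputable section

variable {ok : ℕ → (ℕ → ℕ) → Prop} {ℒ : ℕ → Finset ℕ} {α : ℕ}

/-- the hypotheses of phase 2 -/
structure P2 (ok : ℕ → (ℕ → ℕ) → Prop) (ℒ : ℕ → Finset ℕ) (α τ : ℕ) (bad : ℕ → (ℕ → ℕ) → Prop) :
    Prop where
  loc : Local ok
  hτ : 7 ≤ τ
  hL : ∀ k, τ ≤ k → 4 ≤ (ℒ k).card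
  hv : ∀ m, τ ≤ m → ∀ c ∈ W ok ℒ m, Vld α (c (m-5)) (c (m-4)) (c (m-3)) (c (m-2)) (c (m-1))
  hα : ∀ m, τ ≤ m → ∀ c ∈ W ok ℒ m, c (τ - 1) = α
  hα' : ∀ m, τ ≤ m → ∀ c ∈ W ok ℒ m, ∀ i, i < τ - 1 → c i ≠ α
  h03 : ∀ m, τ ≤ m → ∀ c ∈ W ok ℒ m, c 0 ≠ c 3
  hA : ∀ p c, τ ≤ p → ok p c → AlwC α p c
  hok : ∀ m, τ ≤ m → ∀ c ∈ U ok ℒ m, AlwC α m c → ok m c ∨
    (∃ t, 4 ≤ t ∧ τ + t ≤ m + 1 ∧ Sq t m c) ∨ KEv τ m c ∨ LEv α τ m c ∨ bad m c
  hbad : ∀ m, τ ≤ m → (∀ j, τ ≤ j → j < m → 37 / 20 * Wt ok ℒ α j ≤ Wt ok ℒ α (j + 1)) →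
    1000 * (((U ok ℒ m).filter (bad m)).card : ℚ) ≤ 1 / 200 * Wt ok ℒ α m

/-- cost of the two special events -/
def kc (ok : ℕ → (ℕ → ℕ) → Prop) (ℒ : ℕ → Finset ℕ) (α τ m : ℕ) : ℚ :=
  ∑ c ∈ U ok ℒ m, (if KEv τ m c then vt α (m + 1) c else 0)

def lc (ok : ℕ → (ℕ → ℕ) → Prop) (ℒ : ℕ → Finset ℕ) (α τ m : ℕ) : ℚ :=
  ∑ c ∈ U ok ℒ m, (if LEv α τ m c then vt α (m + 1) c else 0)

theorem P2.step {τ : ℕ} {bad : ℕ → (ℕ → ℕ) → Prop} (h : P2 ok ℒ α τ bad) {m : ℕ} (hm : τ ≤ m)
    (ih : ∀ j, τ ≤ j → j < m → 37 / 20 * Wt ok ℒ α j ≤ Wt ok ℒ α (j + 1)) :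
    9 / 4 * Wt ok ℒ α m ≤ Wt ok ℒ α (m + 1) + ∑ t ∈ Icc 4 (m + 1 - τ), Wt ok ℒ α (m + 1 - t) +
      kc ok ℒ α τ m + lc ok ℒ α τ m + 1 / 200 * Wt ok ℒ α m := by
  have hτ := h.hτ
  have h1 := short_grow h.loc (show 5 ≤ m by omega) (h.hv m hm) (h.hL m hm)
  have h2 : ∑ c ∈ U ok ℒ m, (if AlwC α m c then vt α (m + 1) c else 0) ≤
      ∑ c ∈ U ok ℒ m, ((if ok m c then vt α (m + 1) c else 0) +
      ∑ t ∈ Icc 4 (m + 1 - τ), (if Sq t m c ∧ AlwC α m c then vt α (m + 1) c else 0) +
      (if KEv τ m c then vt α (m + 1) c else 0) + (if LEv α τ m c then vt α (m + 1) c else 0) +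
      (if bad m c then 1000 else 0)) :=
    sum_le_sum fun c hc => split_bound (bad m) (h.hok m hm c hc)
  rw [sum_add_distrib, sum_add_distrib, sum_add_distrib, sum_add_distrib, sum_comm] at h2
  have e1 : ∑ c ∈ U ok ℒ m, (if ok m c then vt α (m + 1) c else 0) = Wt ok ℒ α (m + 1) := by
    rw [← sum_filter, ← W_succ, Wt]
  have e2 : ∑ t ∈ Icc 4 (m + 1 - τ), ∑ c ∈ U ok ℒ m,
      (if Sq t m c ∧ AlwC α m c then vt α (m + 1) c else 0) ≤
      ∑ t ∈ Icc 4 (m + 1 - τ), Wt ok ℒ α (m + 1 - t) := by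
    refine sum_le_sum fun t ht => ?_
    rw [mem_Icc] at ht
    exact sq_bound h.loc (by omega) ht.1 (by omega) h.hA
  have e3 : ∑ c ∈ U ok ℒ m, (if bad m c then (1000 : ℚ) else 0) =
      1000 * (((U ok ℒ m).filter (bad m)).card : ℚ) := by
    rw [← sum_filter, sum_const, nsmul_eq_mul]; ring
  have e4 := h.hbad m hm ih
  unfold kc lc
  linarith

lemma pow_chain {w : ℕ → ℚ} {τ m : ℕ} (ih : ∀ j, τ ≤ j → j < m → 37 / 20 * w j ≤ w (j + 1)) :
    ∀ k j, τ ≤ j → j + k = m → w j ≤ (20 / 37) ^ k * w m := by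
  intro k
  induction k with
  | zero => intro j _ h; simp at h; subst h; simp
  | succ k ihk =>
    intro j hj hjm
    have h1 := ih j hj (by omega)
    have h2 := ihk (j + 1) (by omega) (by omega)
    rw [pow_succ]
    nlinarith

lemma geo (k : ℕ) : ∑ t ∈ Icc 4 k, (20 / 37 : ℚ) ^ (t - 1) ≤ 8000 / 23273 := by
  have h : ∀ k, 3 ≤ k → ∑ t ∈ Icc 4 k, (20 / 37 : ℚ) ^ (t - 1) =
      (37 / 17) * ((20 / 37) ^ 3 - (20 / 37) ^ k) := by
    intro k hk
    induction k, hk using Nat.le_induction with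
    | base => norm_num
    | succ k hk ih =>
      rw [sum_Icc_succ_top (by omega), ih]
      have : k + 1 - 1 = k := by omega
      rw [this, pow_succ]
      ring
  by_cases hk : 3 ≤ k
  · rw [h k hk]
    have : (0 : ℚ) ≤ (20 / 37) ^ k := by positivity
    norm_num
    linarith
  · rw [Icc_eq_empty (by omega)]; norm_num

/-- the sum over squares -/
lemma sq_sum {w : ℕ → ℚ} {τ m : ℕ} (hw : 0 ≤ w m)
    (ih : ∀ j, τ ≤ j → j < m → 37 / 20 * w j ≤ w (j + 1)) (hm : τ ≤ m) :
    ∑ t ∈ Icc 4 (m + 1 - τ), w (m + 1 - t) ≤ 8000 / 23273 * w m := by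
  calc ∑ t ∈ Icc 4 (m + 1 - τ), w (m + 1 - t)
      ≤ ∑ t ∈ Icc 4 (m + 1 - τ), (20 / 37 : ℚ) ^ (t - 1) * w m := by
        refine sum_le_sum fun t ht => ?_
        rw [mem_Icc] at ht
        exact pow_chain ih (t - 1) (m + 1 - t) (by omega) (by omega)
    _ = (∑ t ∈ Icc 4 (m + 1 - τ), (20 / 37 : ℚ) ^ (t - 1)) * w m := by rw [sum_mul]
    _ ≤ _ := mul_le_mul_of_nonneg_right (geo _) hw

theorem P2.lc_le {τ : ℕ} {bad : ℕ → (ℕ → ℕ) → Prop} (h : P2 ok ℒ α τ bad) {m : ℕ} (hm : τ ≤ m)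
    (ih : ∀ j, τ ≤ j → j < m → 37 / 20 * Wt ok ℒ α j ≤ Wt ok ℒ α (j + 1)) :
    lc ok ℒ α τ m ≤ (if 2 * τ ≤ m then 1 / 25 else 0) * Wt ok ℒ α m := by
  have hτ := h.hτ
  have hW := Wt_nonneg (ok := ok) (ℒ := ℒ) (α := α) m
  by_cases h2 : 2 * τ ≤ m
  · rw [if_pos h2]
    have h1 := lev_bound (α := α) (ok := ok) (ℒ := ℒ) h.loc h2 hτ (h.hα m hm)
    have h3 := N_le_Wt (ok := ok) (ℒ := ℒ) (α := α) (m - τ)
    have h4 := pow_chain ih τ (m - τ) (by omega) (by omega)
    have h5 : (20 / 37 : ℚ) ^ τ ≤ (20 / 37) ^ 7 := pow_le_pow_of_le_one (by norm_num) (by norm_num) hτ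
    have h6 : (20 / 37 : ℚ) ^ τ * Wt ok ℒ α m ≤ (20 / 37) ^ 7 * Wt ok ℒ α m :=
      mul_le_mul_of_nonneg_right h5 hW
    unfold lc
    norm_num at h6
    linarith
  · rw [if_neg h2, zero_mul]
    unfold lc
    apply le_of_eq
    apply sum_eq_zero
    intro c _
    rw [if_neg]
    intro h'
    exact h2 h'.1

lemma small_pow {x : ℚ} (hx : 0 ≤ x) {k : ℕ} (hk : 6 ≤ k) : (20 / 37 : ℚ) ^ k * x ≤ (20 / 37) ^ 6 * x :=
  mul_le_mul_of_nonneg_right (pow_le_pow_of_le_one (by norm_num) (by norm_num) hk) hx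

theorem P2.base {τ : ℕ} {bad : ℕ → (ℕ → ℕ) → Prop} (h : P2 ok ℒ α τ bad) :
    Wt ok ℒ α τ = 643 * N ok ℒ τ := by
  have hτ := h.hτ
  rw [Wt, N_eq, mul_sum]
  refine sum_congr rfl fun c hc => ?_
  have h1 := h.hα τ le_rfl c hc
  have h2 := h.hα' τ le_rfl c hc
  unfold vt V
  rw [if_pos h1, if_neg (h2 (τ - 3) (by omega)), if_neg (h2 (τ - 4) (by omega))]
  norm_num

/-- a bound for the potential at the special event -/
theorem P2.kc_le {τ : ℕ} {bad : ℕ → (ℕ → ℕ) → Prop} (h : P2 ok ℒ α τ bad) {m : ℕ} (hm : τ ≤ m) :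
    kc ok ℒ α τ m ≤ (if m + 1 = τ + (τ - 5) then
      (if τ = 7 then 439 else if τ = 8 then 494 else if τ = 9 then 730 else 1000) else 0) *
      N ok ℒ τ := by
  have hτ := h.hτ
  by_cases h2 : m + 1 = τ + (τ - 5)
  · rw [if_pos h2]
    refine kev_bound h.loc h2 hτ _ (by split_ifs <;> norm_num) ?_
    intro c hc hK
    have hcW := trunc_U h.loc hc le_rfl
    have hcτ := h.hα m hm _ hcW
    simp only [trunc, if_pos (show τ - 1 < m by omega)] at hcτ
    have hne : ∀ i, i < τ - 1 → c i ≠ α := by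
      intro i hi
      have := h.hα' m hm _ hcW i hi
      simpa only [trunc, if_pos (show i < m by omega)] using this
    have h03 : c 0 ≠ c 3 := by
      have := h.h03 m hm _ hcW
      simpa only [trunc, if_pos (show 0 < m by omega), if_pos (show 3 < m by omega)] using this
    have hK2 := hK.2
    unfold vt V
    by_cases h7 : τ = 7
    · subst h7
      have hm8 : m = 8 := by omega
      subst hm8
      have r0 := hK2 0 (by norm_num)
      have r1 := hK2 1 (by norm_num)
      norm_num at r0 r1 hcτ ⊢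
      have n0 := hne 0 (by norm_num)
      have n1 := hne 1 (by norm_num)
      rw [r0, r1, hcτ, if_neg n1, if_neg n0]
      simp only [if_true]
      split_ifs <;> norm_num
    · rw [if_neg h7]
      by_cases h8 : τ = 8
      · subst h8
        have hm8 : m = 10 := by omega
        subst hm8
        have r0 := hK2 0 (by norm_num)
        have r1 := hK2 1 (by norm_num)
        have r2 := hK2 2 (by norm_num)
        norm_num at r0 r1 r2 hcτ ⊢
        have n0 := hne 0 (by norm_num)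
        have n1 := hne 1 (by norm_num)
        have n2 := hne 2 (by norm_num)
        rw [r0, r1, r2, hcτ, if_neg n2, if_neg n1, if_neg n0]
        simp only [if_true]
        norm_num
      · rw [if_neg h8]
        by_cases h9 : τ = 9
        · subst h9
          have hm8 : m = 12 := by omega
          subst hm8
          have r0 := hK2 0 (by norm_num)
          have r1 := hK2 1 (by norm_num)
          have r2 := hK2 2 (by norm_num)
          have r3 := hK2 3 (by norm_num)
          norm_num at r0 r1 r2 r3 hcτ ⊢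
          have n0 := hne 0 (by norm_num)
          have n1 := hne 1 (by norm_num)
          have n2 := hne 2 (by norm_num)
          have n3 := hne 3 (by norm_num)
          rw [r0, r1, r2, r3, hcτ, if_neg n3, if_neg n2, if_neg n1, if_neg n0]
          simp only [if_true, if_neg h03]
          split_ifs <;> norm_num
        · rw [if_neg h9]
          have := V_le α (c (m + 1 - 5)) (c (m + 1 - 4)) (c (m + 1 - 3)) (c (m + 1 - 2)) (c (m + 1 - 1))
          unfold V at this
          exact_mod_cast this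
  · rw [if_neg h2, zero_mul]
    unfold kc
    apply le_of_eq
    apply sum_eq_zero
    intro c _
    rw [if_neg]
    intro h'
    exact h2 h'.1

theorem P2.main {τ : ℕ} {bad : ℕ → (ℕ → ℕ) → Prop} (h : P2 ok ℒ α τ bad) :
    ∀ m, τ ≤ m → 37 / 20 * Wt ok ℒ α m ≤ Wt ok ℒ α (m + 1) := by
  intro m
  induction m using Nat.strong_induction_on with
  | _ m IH =>
  intro hm
  have ih : ∀ j, τ ≤ j → j < m → 37 / 20 * Wt ok ℒ α j ≤ Wt ok ℒ α (j + 1) :=
    fun j hj hjm => IH j hjm hj
  have hτ := h.hτ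
  have hW := Wt_nonneg (ok := ok) (ℒ := ℒ) (α := α) m
  have hst := h.step hm ih
  have hlc := h.lc_le hm ih
  have hkc := h.kc_le hm
  have hb := h.base
  have hsq := sq_sum hW ih hm
  by_cases hk : m + 1 = τ + (τ - 5)
  · -- the special place
    rw [if_pos hk] at hkc
    rw [if_neg (by omega)] at hlc
    by_cases h7 : τ = 7
    · subst h7
      have hm8 : m = 8 := by omega
      subst hm8
      rw [if_pos rfl] at hkc
      have hst7 := h.step (m := 7) (by norm_num) (fun j hj hj' => by omega)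
      have hkc7 := h.kc_le (m := 7) (by norm_num)
      have hlc7 := h.lc_le (m := 7) (by norm_num) (fun j hj hj' => by omega)
      norm_num at hst7 hkc7 hlc7 hst hlc hkc hb
      linarith
    · rw [if_neg h7] at hkc
      by_cases h8 : τ = 8
      · subst h8
        have hm8 : m = 10 := by omega
        subst hm8
        rw [if_pos rfl] at hkc
        have hp := pow_chain ih 2 8 (by norm_num) (by norm_num)
        norm_num at hst hlc hkc hb hp
        linarith
      · rw [if_neg h8] at hkc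
        by_cases h9 : τ = 9
        · subst h9
          have hm8 : m = 12 := by omega
          subst hm8
          rw [if_pos rfl] at hkc
          have hp := pow_chain ih 3 9 (by norm_num) (by norm_num)
          norm_num at hst hlc hkc hb hp
          linarith
        · rw [if_neg h9] at hkc
          by_cases h10 : τ = 10
          · subst h10
            have hm8 : m = 14 := by omega
            subst hm8
            have hp := pow_chain ih 4 10 (by norm_num) (by norm_num)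
            have hp3 := pow_chain ih 3 11 (by norm_num) (by norm_num)
            have e : ∑ t ∈ Icc 4 5, Wt ok ℒ α (15 - t) = Wt ok ℒ α 11 + Wt ok ℒ α 10 := by
              rw [sum_Icc_succ_top (by norm_num)]; norm_num
            norm_num at hst hlc hkc hb hp hp3
            rw [e] at hst
            linarith
          · by_cases h11 : τ = 11
            · subst h11
              have hm8 : m = 16 := by omega
              subst hm8
              have hp := pow_chain ih 5 11 (by norm_num) (by norm_num)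
              have hp4 := pow_chain ih 4 12 (by norm_num) (by norm_num)
              have hp3 := pow_chain ih 3 13 (by norm_num) (by norm_num)
              have e : ∑ t ∈ Icc 4 6, Wt ok ℒ α (17 - t) =
                  Wt ok ℒ α 13 + Wt ok ℒ α 12 + Wt ok ℒ α 11 := by
                rw [sum_Icc_succ_top (by norm_num), sum_Icc_succ_top (by norm_num)]; norm_num
              norm_num at hst hlc hkc hb hp hp3 hp4
              rw [e] at hst
              linarith
            · have hp := pow_chain ih (τ - 6) τ le_rfl (by omega)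
              have hp6 := small_pow hW (show 6 ≤ τ - 6 by omega)
              norm_num at hst hlc hkc hb hp6
              linarith
  · rw [if_neg hk] at hkc
    have hlc' : lc ok ℒ α τ m ≤ 1 / 25 * Wt ok ℒ α m := by
      refine hlc.trans (mul_le_mul_of_nonneg_right ?_ hW)
      split_ifs <;> norm_num
    norm_num at hkc
    linarith

end
end Pool.Agent.H378R3.ND
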